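import Mathlib

/-!
# NIB: definitions

Linear arboricity with a power saving: `la(G) ≤ Δ/2 + Δ^0.49`.
Paper: `/team-store/PAPER_LAC.md`; plan: `/team-store/PLAN_NIB.md`.
-/

set_option autoImplicit false

open Finset Matrix

namespace Pool.Agent.NIB

/-! ## 1. Finite weighted product spaces -/

section prob

/-- `wt i` is a probability vector on `α`, for every coordinate `i`. -/
structure IsWt {I α : Type} [Fintype α] (wt : I → α → ℝ) : Prop where
  nonneg : ∀ i s, 0 ≤ wt i s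
  one : ∀ i, ∑ s, wt i s = 1

variable {I α : Type} [Fintype I] [DecidableEq I] [Fintype α]

/-- Weight of an outcome. -/
noncomputable def pw (wt : I → α → ℝ) (ω : I → α) : ℝ := ∏ i, wt i (ω i)

/-- Expectation. -/
noncomputable def Ex (wt : I → α → ℝ) (F : (I → α) → ℝ) : ℝ := ∑ ω, pw wt ω * F ω

/-- Probability of an event. -/
noncomputable def Pr (wt : I → α → ℝ) (A : Set (I → α)) : ℝ :=
  Ex wt (A.indicator fun _ => (1 : ℝ))

end prob

/-! ## 2. Linear algebra -/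

section lin

variable {W : Type} [Fintype W] [DecidableEq W]

/-- Symmetric, nonnegative, row sums at most one. -/
structure IsSub (A : Matrix W W ℝ) : Prop where
  nonneg : ∀ a b, 0 ≤ A a b
  symm : ∀ a b, A a b = A b a
  row : ∀ a, ∑ b, A a b ≤ 1

/-- The lazy walk `(1 + A) / 2`. -/
noncomputable def laz (A : Matrix W W ℝ) : Matrix W W ℝ := (1 / 2 : ℝ) • (1 + A)

/-- The truncated Green function `(1/2) ∑_{j < τ} ((1+A)/2)^j`. -/
noncomputable def grn (A : Matrix W W ℝ) (τ : ℕ) : Matrix W W ℝ :=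
  (1 / 2 : ℝ) • ∑ j ∈ range τ, laz A ^ j

/-- Point mass. -/
noncomputable def dl (w : W) : W → ℝ := Pi.single w 1

/-- Squared `ℓ²` norm. -/
noncomputable def nsq (f : W → ℝ) : ℝ := ∑ a, f a ^ 2

/-- Energy. -/
noncomputable def En (A : Matrix W W ℝ) (f : W → ℝ) : ℝ :=
  (1 / 2) * ∑ a, ∑ b, A a b * (f a - f b) ^ 2

/-- The function `n(w)` of paper (f). -/
noncomputable def nnf (A : Matrix W W ℝ) (τ : ℕ) (w : W) : ℝ :=
  (A * A * (1 - laz A ^ τ) * grn A τ) w w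

/-- `μ_w = ĝ_w - ∑ A(w,w') ĝ_{w'} - δ_w`. -/
noncomputable def mu (A : Matrix W W ℝ) (gh : W → W → ℝ) (w : W) : W → ℝ :=
  fun z => gh w z - ∑ w', A w w' * gh w' z - dl w z

/-- `Q(w,w') = E(A(ĝ_w - ĝ_{w'}))`. -/
noncomputable def Qd (A : Matrix W W ℝ) (gh : W → W → ℝ) (w w' : W) : ℝ :=
  En A (A *ᵥ (gh w - gh w'))

/-- `Γ̂(w) = ∑ A(w,w') Q(w,w')`. -/
noncomputable def Gamh (A : Matrix W W ℝ) (gh : W → W → ℝ) (w : W) : ℝ :=
  ∑ w', A w w' * Qd A gh w w'

/-- `c_w(w') = A(w,w') √Q(w,w')`. -/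
noncomputable def cc (A : Matrix W W ℝ) (gh : W → W → ℝ) (w : W) : W → ℝ :=
  fun w' => A w w' * √(Qd A gh w w')

/-- Properties of the sampled Green functions. -/
structure GhOk (A : Matrix W W ℝ) (gh : W → W → ℝ) (de eps : ℝ) (ta Z : ℕ) : Prop where
  gh0 : ∀ w z, 0 ≤ gh w z
  gh1 : ∀ w, ∑ z, gh w z ≤ ta / 2
  gh2 : ∀ w, nsq (A *ᵥ (gh w - grn A ta *ᵥ dl w)) ≤ eps * de
  row : ∀ w, ({z | gh w z ≠ 0} : Set W).ncard ≤ Z
  col : ∀ z, ({w | gh w z ≠ 0} : Set W).ncard ≤ 2 * Z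

/-- Weights of the sampling space: coordinate `(w, i, j)` is the end point of a lazy walk of
length `j` started at `w`. -/
noncomputable def swt (A : Matrix W W ℝ) (np ta : ℕ) : W × Fin np × Fin ta → Option W → ℝ
  | (w, _, j), some z => (laz A ^ (j : ℕ)) w z
  | (w, _, j), none => 1 - ∑ z, (laz A ^ (j : ℕ)) w z

/-- Number of samples of `w` that end at `z`. -/
def cnt {np ta : ℕ} (ω : W × Fin np × Fin ta → Option W) (w z : W) : ℕ :=
  (univ.filter fun p : Fin np × Fin ta => ω (w, p) = some z).card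

/-- Sampled Green function. -/
noncomputable def ghs {np ta : ℕ} (ω : W × Fin np × Fin ta → Option W) (w z : W) : ℝ :=
  (cnt ω w z : ℝ) / (2 * np)

end lin

/-! ## 3. Nodes.  `V × Bool`: `(u, true)` is the out-slot of `u`, `(v, false)` the in-slot of `v`. -/

section node

variable {V : Type}

/-- The symmetric node matrix of an arc array. -/
def mat (x : V → V → ℝ) : Matrix (V × Bool) (V × Bool) ℝ := fun a b =>
  match a.2, b.2 with
  | true, false => x a.1 b.1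
  | false, true => x b.1 a.1
  | true, true => 0
  | false, false => 0

/-- `grad f (u,v) = f(u+) - f(v-)`. -/
def grad (f : V × Bool → ℝ) : V → V → ℝ := fun u v => f (u, true) - f (v, false)

/-- `plu f (u,v) = f(u+) + f(v-)`. -/
def plu (f : V × Bool → ℝ) : V → V → ℝ := fun u v => f (u, true) + f (v, false)

/-- Sign of a node: `+1` for out-slots, `-1` for in-slots. -/
def sgn (w : V × Bool) : ℝ := if w.2 then 1 else -1

variable [Fintype V]

/-- Row sum of the node matrix of an arc array. -/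
noncomputable def rs (x : V → V → ℝ) (w : V × Bool) : ℝ := ∑ w', mat x w w'

/-- `Q(κ) = ∑ x κ²`. -/
noncomputable def Qf (x kap : V → V → ℝ) : ℝ := ∑ u, ∑ v, x u v * kap u v ^ 2

/-- The noise functional `∑ κ (1[selected] - θ x°)`. -/
noncomputable def dev (th : ℝ) (xo sg kap : V → V → ℝ) : ℝ :=
  ∑ u, ∑ v, kap u v * (sg u v - th * xo u v)

/-- `(1 - R(w)) / (1 - θ)`. -/
noncomputable def Gf (th : ℝ) (sg : V → V → ℝ) (w : V × Bool) : ℝ := (1 - rs sg w) / (1 - th)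

/-- `y = 1[not burned]/om - 1`. -/
noncomputable def yv (ub om : V → V → ℝ) : V → V → ℝ := fun u v => (1 - ub u v) / om u v - 1

end node

/-! ## 4. The random bite -/

/-- Data of the random bite: weights, starts of paths, `θ`, order of the arcs. -/
structure Bm (V C : Type) where
  x : C → V → V → ℝ
  st : C → V → V
  th : ℝ
  ord : V × V → ℕ

/-- Coordinates: arcs and labels. -/
abbrev Crd (V C : Type) : Type := (V × V) ⊕ (C × V)

/-- Values: nothing, or a colour and an acceptance bit. -/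
abbrev Val (C : Type) : Type := Option (C × Bool)

/-- The value is of colour `c`. -/
def colOf {C : Type} (s : Val C) (c : C) : Prop := ∃ b, s = some (c, b)

namespace Bm

variable {V C : Type} (b : Bm V C)

/-- Activation probability of the arc `a` in colour `c`. -/
def q (c : C) (a : V × V) : ℝ := 8 * b.th * b.x c a.1 a.2

variable [Fintype V] [DecidableEq V] [Fintype C] [DecidableEq C]

open Classical in
/-- Earlier arcs adjacent to `a` (same tail or same head) that carry colour `c`. -/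
noncomputable def blk (c : C) (a : V × V) : Finset (V × V) :=
  univ.filter fun a' => b.ord a' < b.ord a ∧ (a'.1 = a.1 ∨ a'.2 = a.2) ∧ b.x c a'.1 a'.2 ≠ 0

/-- Acceptance probability. -/
noncomputable def pac (c : C) (a : V × V) : ℝ := 1 / (2 * ∏ a' ∈ b.blk c a, (1 - b.q c a'))

/-- The weights of the product space. -/
noncomputable def wt : Crd V C → Val C → ℝ
  | .inl a, none => 1 - ∑ c, b.q c a
  | .inl a, some (c, true) => b.q c a * b.pac c a
  | .inl a, some (c, false) => b.q c a * (1 - b.pac c a)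
  | .inr _, none => 1 / 2
  | .inr (c, _), some (c', bb) => if c' = c ∧ bb = true then 1 / 2 else 0

/-- The arc `a` is selected for colour `c`. -/
def Sel (c : C) (ω : Crd V C → Val C) (a : V × V) : Prop :=
  ω (.inl a) = some (c, true) ∧ b.x c a.1 a.2 ≠ 0 ∧
    (∀ a' ∈ b.blk c a, ¬ colOf (ω (.inl a')) c) ∧
    ¬ colOf (ω (.inr (c, b.st c a.1))) c ∧ colOf (ω (.inr (c, a.2))) c

open Classical in
/-- Indicator of the selected arcs. -/
noncomputable def sg (c : C) (ω : Crd V C → Val C) : V → V → ℝ :=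
  fun u v => if b.Sel c ω (u, v) then 1 else 0

open Classical in
/-- Indicator of the arcs burned for `c` (used by another colour). -/
noncomputable def ub (_b : Bm V C) (c : C) (ω : Crd V C → Val C) : V → V → ℝ :=
  fun u v => if ∃ c', c' ≠ c ∧ colOf (ω (.inl (u, v))) c' then 1 else 0

/-- Weights without the closing arcs. -/
noncomputable def xo (c : C) : V → V → ℝ := fun u v => if b.st c u = v then 0 else b.x c u v

/-- `om = 1 - P(burned | not own colour)`. -/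
noncomputable def om (c : C) : V → V → ℝ := fun u v =>
  1 - (∑ c' ∈ univ.erase c, b.q c' (u, v)) / (1 - b.q c (u, v))

/-- First order influence of a coordinate on `∑_c dev (κ_c)`. -/
noncomputable def ifa (_b : Bm V C) (kap : C → V → V → ℝ) : Crd V C → Val C → ℝ
  | .inl a, some (c, _) => |kap c a.1 a.2|
  | _, _ => 0

open Classical in
/-- Influence of a coordinate through the later coordinates. -/
noncomputable def ifb (kap : C → V → V → ℝ) : Crd V C → Val C → Crd V C → Val C → ℝ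
  | .inl a0, some (c, _), .inl a, some (c', true) =>
      if c' = c ∧ a0 ∈ b.blk c a then |kap c a.1 a.2| else 0
  | .inr (c, s0), some _, .inl a, some (c', true) =>
      if c' = c ∧ b.x c a.1 a.2 ≠ 0 ∧ (b.st c a.1 = s0 ∨ a.2 = s0) then |kap c a.1 a.2| else 0
  | _, _, _, _ => 0

open Classical in
/-- Total (averaged) influence. -/
noncomputable def ifc (kap : C → V → V → ℝ) : Crd V C → Val C → ℝ
  | _, none => 0
  | .inl a0, some (c, _) =>
      |kap c a0.1 a0.2| + ∑ a with a0 ∈ b.blk c a, b.q c a * |kap c a.1 a.2|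
  | .inr (c, s0), some _ =>
      ∑ a with b.x c a.1 a.2 ≠ 0 ∧ (b.st c a.1 = s0 ∨ a.2 = s0), b.q c a * |kap c a.1 a.2|

/-- Order of the coordinates: labels first, then the arcs. -/
noncomputable def ordI : Crd V C → ℕ
  | .inr p => (Fintype.equivFin (C × V) p : ℕ)
  | .inl a => Fintype.card (C × V) + b.ord a

/-- Coordinates that determine the fate of the arc `a` in colour `c`. -/
noncomputable def dep (c : C) (a : V × V) : Finset (Crd V C) :=
  {.inl a, .inr (c, b.st c a.1), .inr (c, a.2)} ∪ (b.blk c a).image .inl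

/-- Hypotheses of the random bite. -/
structure Ok (de Lam h : ℝ) (kap : ℕ) : Prop where
  ordInj : Function.Injective b.ord
  x0 : ∀ c u v, 0 ≤ b.x c u v
  xle : ∀ c u v, b.x c u v ≤ de
  row : ∀ c w, rs (b.x c) w ≤ 1
  lam : ∀ u v, ∑ c, b.x c u v ≤ Lam
  kout : ∀ u, ({v | ∃ c, b.x c u v ≠ 0} : Set V).ncard ≤ kap
  kin : ∀ v, ({u | ∃ c, b.x c u v ≠ 0} : Set V).ncard ≤ kap
  stInj : ∀ c u u' v v', b.x c u v ≠ 0 → b.x c u' v' ≠ 0 → b.st c u = b.st c u' → u = u'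
  hh : ∀ w, (({c | rs (b.x c) w ≠ 0} : Set C).ncard : ℝ) ≤ h
  th0 : 0 < b.th
  th1 : b.th ≤ 1 / 200
  thLam : 800 * b.th * Lam ≤ 1

end Bm

/-- The arc `a` is at the node `w`. -/
def atn {V : Type} (w : V × Bool) (a : V × V) : Prop := w = (a.1, true) ∨ w = (a.2, false)

/-- Index type of the bad events: `(c, j)` (O4), `(c, w)` (O5), `(c, w)` (O6), `w` (O7). -/
abbrev EI (V C J : Type) : Type := (C × J) ⊕ (C × (V × Bool)) ⊕ (C × (V × Bool)) ⊕ (V × Bool)

section events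

variable {V C J : Type} [Fintype V] [DecidableEq V] [Fintype C] [DecidableEq C]
  (b : Bm V C) (kp : C → J → V → V → ℝ) (Mb : C → J → ℝ) (de Lam h lam : ℝ)

/-- The bad events. -/
def BE : EI V C J → Set (Crd V C → Val C)
  | .inl (c, j) => {ω | 9 * √(lam * b.th * Qf (b.x c) (kp c j)) + 8 * lam * Mb c j <
      |dev b.th (b.xo c) (b.sg c ω) (kp c j)|}
  | .inr (.inl (c, w)) => {ω | 10 * √(lam * de * b.th * Lam) + 9 * lam * de <
      |∑ w', mat (b.x c) w w' * Gf b.th (b.sg c ω) w' * mat (yv (b.ub c ω) (b.om c)) w w'|}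
  | .inr (.inr (.inl (c, w))) => {ω | 8 * b.th * Lam + 6 * √(lam * de * b.th * Lam) +
      4 * lam * de < ∑ w', mat (b.x c) w w' * mat (b.ub c ω) w w'}
  | .inr (.inr (.inr w)) => {ω | 9 * √(lam * b.th * h) + 8 * lam <
      |∑ c, rs (b.sg c ω) w - b.th * ∑ c, rs (b.xo c) w|}

open Classical in
/-- The (colour, arc) pairs on which a bad event depends. -/
noncomputable def PE : EI V C J → Finset (C × (V × V))
  | .inl (c, j) => univ.filter fun p =>
      p.1 = c ∧ b.x c p.2.1 p.2.2 ≠ 0 ∧ kp c j p.2.1 p.2.2 ≠ 0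
  | .inr (.inl (c, w)) => univ.filter fun p =>
      p.1 = c ∧ b.x c p.2.1 p.2.2 ≠ 0 ∧ (atn w p.2 ∨ ∃ w', mat (b.x c) w w' ≠ 0 ∧ atn w' p.2)
  | .inr (.inr (.inl (c, w))) => univ.filter fun p =>
      p.1 = c ∧ b.x c p.2.1 p.2.2 ≠ 0 ∧ atn w p.2
  | .inr (.inr (.inr w)) => univ.filter fun p => b.x p.1 p.2.1 p.2.2 ≠ 0 ∧ atn w p.2

/-- The coordinates on which a bad event depends. -/
noncomputable def WE (e : EI V C J) : Finset (Crd V C) :=
  (PE b kp e).biUnion fun p => b.dep p.1 p.2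

end events

/-- The outcome of the selection theorem. -/
structure SelOut {V C J : Type} [Fintype V] [DecidableEq V] [Fintype C] [DecidableEq C]
    (b : Bm V C) (de Lam h lam : ℝ) (kp : C → J → V → V → ℝ) (Mb : C → J → ℝ)
    (sg ub : C → V → V → ℝ) (lab : C → V → Prop) : Prop where
  sg01 : ∀ c u v, sg c u v = 0 ∨ sg c u v = 1
  ub01 : ∀ c u v, ub c u v = 0 ∨ ub c u v = 1
  sgx : ∀ c u v, sg c u v = 1 → b.x c u v ≠ 0
  sgrow : ∀ c w, rs (sg c) w ≤ 1
  sglab : ∀ c u v, sg c u v = 1 → ¬ lab c (b.st c u) ∧ lab c v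
  sgdisj : ∀ c c' u v, c ≠ c' → sg c u v = 1 → sg c' u v = 0
  sgub : ∀ c c' u v, c ≠ c' → sg c u v = 1 → ub c' u v = 1
  o4 : ∀ c j, |dev b.th (b.xo c) (sg c) (kp c j)| ≤
    9 * √(lam * b.th * Qf (b.x c) (kp c j)) + 8 * lam * Mb c j
  o5 : ∀ c w, |∑ w', mat (b.x c) w w' * Gf b.th (sg c) w' * mat (yv (ub c) (b.om c)) w w'| ≤
    10 * √(lam * de * b.th * Lam) + 9 * lam * de
  o6 : ∀ c w, ∑ w', mat (b.x c) w w' * mat (ub c) w w' ≤
    8 * b.th * Lam + 6 * √(lam * de * b.th * Lam) + 4 * lam * de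
  o7 : ∀ w, |∑ c, rs (sg c) w - b.th * ∑ c, rs (b.xo c) w| ≤ 9 * √(lam * b.th * h) + 8 * lam

/-! ## 5. The correction (one colour) -/

/-- Data of the correction theorem. -/
structure Cd (V : Type) where
  x : V → V → ℝ
  xo : V → V → ℝ
  sg : V → V → ℝ
  ub : V → V → ℝ
  om : V → V → ℝ
  H : V × Bool → Prop
  gh : V × Bool → V × Bool → ℝ
  th : ℝ
  de : ℝ
  r : ℝ
  eps : ℝ
  B1 : ℝ
  Phi : ℝ
  el : ℝ
  kb : ℝ
  B4 : ℝ
  B5 : ℝ
  B6 : ℝ
  obar : ℝ
  ta : ℕ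

namespace Cd

variable {V : Type} (D : Cd V)

noncomputable def b1 : ℝ := D.th / (1 - D.th) * (2 * D.r + D.de) + 101 / 100 * D.B4

noncomputable def phib : ℝ := 101 / 100 * D.Phi + 3 * D.ta * D.th * D.Phi

noncomputable def beta2 : ℝ :=
  4 * D.el * (D.th * √D.th * √(D.de * (3 * √D.ta + 6 * D.th * D.ta + 7)) + D.th * D.kb)

noncomputable def beta : ℝ :=
  101 / 100 * D.B1 + 202 / 100 * D.r * D.Phi + D.beta2 +
    (2 * D.r + 2 * D.b1) * (3 * D.ta * D.th * D.Phi) + D.B5 +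
    22 / 10 * D.phib * (D.B6 + 2 * D.obar)

noncomputable def Psi : ℝ := (1 + 2 * D.phib) * (1 + 2 * D.obar) - 1

variable [Fintype V] [DecidableEq V]

/-- Hypotheses of the correction theorem. -/
structure Ok : Prop where
  th0 : 0 < D.th
  th1 : D.th ≤ 1 / 200
  de0 : 0 ≤ D.de
  r0 : 0 ≤ D.r
  r1 : D.r ≤ 1 / 8
  eps0 : 0 ≤ D.eps
  eps1 : 12 * D.eps ≤ 1
  B10 : 0 ≤ D.B1
  Phi0 : 0 ≤ D.Phi
  el0 : 0 ≤ D.el
  kb0 : 0 ≤ D.kb
  B40 : 0 ≤ D.B4
  B50 : 0 ≤ D.B5
  B60 : 0 ≤ D.B6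
  obar0 : 0 ≤ D.obar
  ta1 : 1 ≤ D.ta
  phib1 : D.phib ≤ 1 / 8
  b1th : D.b1 ≤ D.th
  B4th : D.B4 ≤ D.th / 2
  x0 : ∀ u v, 0 ≤ D.x u v
  xle : ∀ u v, D.x u v ≤ D.de
  row : ∀ w, rs D.x w ≤ 1
  rowH : ∀ w, D.H w → 1 - 2 * D.r ≤ rs D.x w
  supp : ∀ w w', mat D.x w w' ≠ 0 → D.H w
  xo0 : ∀ u v, 0 ≤ D.xo u v
  xox : ∀ u v, D.xo u v ≤ D.x u v
  xorow : ∀ w, rs D.x w - D.de ≤ rs D.xo w
  sg01 : ∀ u v, D.sg u v = 0 ∨ D.sg u v = 1
  sgx : ∀ u v, D.sg u v = 1 → D.x u v ≠ 0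
  sgrow : ∀ w, rs D.sg w ≤ 1
  ub01 : ∀ u v, D.ub u v = 0 ∨ D.ub u v = 1
  om2 : ∀ u v, 1 / 2 ≤ D.om u v
  om1 : ∀ u v, D.om u v ≤ 1
  omo : ∀ u v, 1 - D.om u v ≤ D.obar
  gh0 : ∀ w z, 0 ≤ D.gh w z
  gh1 : ∀ w, ∑ z, D.gh w z ≤ D.ta / 2
  gh2 : ∀ w, nsq (mat D.x *ᵥ (D.gh w - grn (mat D.x) D.ta *ᵥ dl w)) ≤ D.eps * D.de
  k1 : ∀ w, |dev D.th D.xo D.sg (grad (mat D.x *ᵥ mu (mat D.x) D.gh w))| ≤ D.B1
  k2 : ∀ w, |dev D.th D.xo D.sg (grad (mat D.x *ᵥ D.gh w))| ≤ D.Phi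
  k3 : ∀ w w', mat D.x w w' ≠ 0 →
    |dev D.th D.xo D.sg (grad (mat D.x *ᵥ (D.gh w - D.gh w')))| ≤
      D.el * (√(D.th * Qd (mat D.x) D.gh w w') + D.kb)
  k4 : ∀ w, |dev D.th D.xo D.sg (plu (cc (mat D.x) D.gh w))| ≤
    D.th * √(Gamh (mat D.x) D.gh w)
  k5 : ∀ w, |dev D.th D.xo D.sg (plu (mat D.x *ᵥ dl w))| ≤ D.B4
  k6 : ∀ w, |∑ w', mat D.x w w' * Gf D.th D.sg w' * mat (yv D.ub D.om) w w'| ≤ D.B5
  k7 : ∀ w, ∑ w', mat D.x w w' * mat D.ub w w' ≤ D.B6

/-- `R° = R - θ s°`. -/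
noncomputable def Ro (w : V × Bool) : ℝ := rs D.sg w - D.th * rs D.xo w

/-- `e = A R° / (1 - θ)`. -/
noncomputable def ee (w : V × Bool) : ℝ := (mat D.x *ᵥ D.Ro) w / (1 - D.th)

/-- signed noise. -/
noncomputable def et (w : V × Bool) : ℝ := sgn w * D.ee w

/-- `φ̂(w) = ⟨ĝ_w, ẽ⟩`. -/
noncomputable def phh (w : V × Bool) : ℝ := D.gh w ⬝ᵥ D.et

/-- The second order term. -/
noncomputable def Th (w : V × Bool) : ℝ :=
  ∑ w', mat D.x w w' * (Gf D.th D.sg w' - 1) * (D.phh w - D.phh w')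

/-- Surviving holes. -/
def Hp (w : V × Bool) : Prop := D.H w ∧ rs D.sg w = 0

open Classical in
noncomputable def Thp (w : V × Bool) : ℝ := if D.Hp w then D.Th w else 0

open Classical in
/-- The current weights on the surviving holes, normalised to be substochastic. -/
noncomputable def Ab : Matrix (V × Bool) (V × Bool) ℝ := fun w w' =>
  if D.Hp w ∧ D.Hp w' then mat D.x w w' / ((1 - D.th) * (1 + D.b1)) else 0

/-- The second order correction. -/
noncomputable def phF (w : V × Bool) : ℝ := -(1 / (1 + D.b1)) * (grn D.Ab D.ta *ᵥ D.Thp) w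

noncomputable def phi (w : V × Bool) : ℝ := D.phh w + D.phF w

/-- `drift`. -/
noncomputable def drf (w : V × Bool) : ℝ :=
  D.th / (1 - D.th) * ∑ w', mat D.x w w' * (1 - rs D.xo w')

end Cd

/-! ## 6. Parameters of one bite -/

structure Prm where
  th : ℝ
  de : ℝ
  r : ℝ
  lam : ℝ
  eps : ℝ
  Lam : ℝ
  ta : ℕ

namespace Prm

variable (P : Prm)

noncomputable def B1 : ℝ :=
  9 * √(P.lam * P.th * (P.de * (2 / P.ta + 16 * P.eps))) + 16 * P.lam * P.de * (P.ta + 1)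

noncomputable def Phi : ℝ :=
  9 * √(P.lam * P.th * (P.de * (P.ta + 4 * P.eps))) + 8 * P.lam * P.de * P.ta

noncomputable def el : ℝ := 9 * √P.lam

noncomputable def kb : ℝ := 2 * √P.lam * P.de * P.ta

noncomputable def B4 : ℝ := 9 * √(P.lam * P.th * P.de) + 8 * P.lam * P.de

noncomputable def B5 : ℝ := 10 * √(P.lam * P.de * P.th * P.Lam) + 9 * P.lam * P.de

noncomputable def B6 : ℝ :=
  8 * P.th * P.Lam + 6 * √(P.lam * P.de * P.th * P.Lam) + 4 * P.lam * P.de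

noncomputable def obar : ℝ := 9 * P.th * P.Lam

noncomputable def b1 : ℝ := P.th / (1 - P.th) * (2 * P.r + P.de) + 101 / 100 * P.B4

noncomputable def phib : ℝ := 101 / 100 * P.Phi + 3 * P.ta * P.th * P.Phi

noncomputable def beta2 : ℝ :=
  4 * P.el * (P.th * √P.th * √(P.de * (3 * √P.ta + 6 * P.th * P.ta + 7)) + P.th * P.kb)

noncomputable def beta : ℝ :=
  101 / 100 * P.B1 + 202 / 100 * P.r * P.Phi + P.beta2 +
    (2 * P.r + 2 * P.b1) * (3 * P.ta * P.th * P.Phi) + P.B5 +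
    22 / 10 * P.phib * (P.B6 + 2 * P.obar)

noncomputable def Psi : ℝ := (1 + 2 * P.phib) * (1 + 2 * P.obar) - 1

end Prm

/-! ## 7. Arrays to which the selection theorem is applied -/

section arrays

variable {V : Type}

/-- Index type of the arrays of one colour. -/
abbrev JJ (V : Type) : Type :=
  (V × Bool) ⊕ (V × Bool) ⊕ ((V × Bool) × (V × Bool)) ⊕ (V × Bool) ⊕ (V × Bool)

variable [Fintype V] [DecidableEq V]

open Classical in
/-- The arrays of one colour. -/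
noncomputable def kpA (x : V → V → ℝ) (gh : V × Bool → V × Bool → ℝ) : JJ V → V → V → ℝ
  | .inl w => grad (mat x *ᵥ mu (mat x) gh w)
  | .inr (.inl w) => grad (mat x *ᵥ gh w)
  | .inr (.inr (.inl (w, w'))) =>
      if mat x w w' ≠ 0 then grad (mat x *ᵥ (gh w - gh w')) else fun _ _ => 0
  | .inr (.inr (.inr (.inl w))) => plu (cc (mat x) gh w)
  | .inr (.inr (.inr (.inr w))) => plu (mat x *ᵥ dl w)

/-- Sup bounds of the arrays. -/
noncomputable def MbA (x : V → V → ℝ) (gh : V × Bool → V × Bool → ℝ) (de : ℝ) (ta : ℕ) :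
    JJ V → ℝ
  | .inl _ => 2 * de * (ta + 1)
  | .inr (.inl _) => de * ta
  | .inr (.inr (.inl _)) => de * ta
  | .inr (.inr (.inr (.inl w))) => √(de * Gamh (mat x) gh w)
  | .inr (.inr (.inr (.inr _))) => de

end arrays

/-! ## 8. States -/

/-- A state: linear forests, weights, starts of paths, rank functions. -/
structure St (V C : Type) where
  M : C → V → V → Prop
  x : C → V → V → ℝ
  st : C → V → V
  rk : C → V → ℕ

namespace St

variable {V C : Type} (S : St V C)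

/-- Holes. -/
def hole (c : C) (w : V × Bool) : Prop :=
  if w.2 then ∀ v, ¬ S.M c w.1 v else ∀ u, ¬ S.M c u w.1

/-- Invariants of a state. -/
structure Good [Fintype V] (E : V → V → Prop) (de r h : ℝ) : Prop where
  disj : ∀ c c' u v, S.M c u v → S.M c' u v → c = c'
  sub : ∀ c u v, S.M c u v → E u v
  out : ∀ c u v v', S.M c u v → S.M c u v' → v = v'
  inn : ∀ c u u' v, S.M c u v → S.M c u' v → u = u'
  rank : ∀ c u v, S.M c u v → S.rk c u < S.rk c v
  st1 : ∀ c u v, S.M c u v → S.st c u = S.st c v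
  st2 : ∀ c v, S.hole c (v, false) → S.st c v = v
  st3 : ∀ c u u', S.hole c (u, true) → S.hole c (u', true) → S.st c u = S.st c u' → u = u'
  x0 : ∀ c u v, 0 ≤ S.x c u v
  xE : ∀ c u v, S.x c u v ≠ 0 → E u v
  xM : ∀ c c' u v, S.x c u v ≠ 0 → ¬ S.M c' u v
  xout : ∀ c u v, S.x c u v ≠ 0 → S.hole c (u, true)
  xinn : ∀ c u v, S.x c u v ≠ 0 → S.hole c (v, false)
  xle : ∀ c u v, S.x c u v ≤ de
  row : ∀ c w, rs (S.x c) w ≤ 1
  rowH : ∀ c w, S.hole c w → 1 - 2 * r ≤ rs (S.x c) w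
  hcnt : ∀ w, (({c | S.hole c w} : Set C).ncard : ℝ) ≤ h

end St

/-- Out- and in-degrees at most `K`. -/
structure DegLe {V : Type} (E : V → V → Prop) (K : ℕ) : Prop where
  out : ∀ u, ({v | E u v} : Set V).ncard ≤ K
  inn : ∀ v, ({u | E u v} : Set V).ncard ≤ K

/-- Out- and in-degrees equal to `K`. -/
structure DegEq {V : Type} (E : V → V → Prop) (K : ℕ) : Prop where
  out : ∀ u, ({v | E u v} : Set V).ncard = K
  inn : ∀ v, ({u | E u v} : Set V).ncard = K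

/-- Bound for the number of arcs in the support of an array. -/
def KK1 (kap Z : ℕ) : ℕ := kap ^ 2 * ((kap + 2) * Z + 2)

/-- Bound for the number of arrays whose support contains an arc. -/
def KK2 (kap Z : ℕ) : ℕ := 2 * kap * (6 * Z * (kap + 1) + 3)

/-- The local lemma condition of the selection theorem. -/
def LLL2 (nC kap K1 K2 : ℕ) (lam : ℝ) : Prop :=
  64 * ((nC : ℝ) + 2) ^ 2 * ((kap : ℝ) + 3) ^ 12 * ((K1 : ℝ) + 2) * ((K2 : ℝ) + 2) *
    Real.exp (-lam) ≤ 1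

/-- The local lemma condition of the sampling lemma. -/
def LLL1 (np ta kap : ℕ) (lam' : ℝ) : Prop :=
  16 * (np : ℝ) * ta * ((kap : ℝ) + 1) ^ (2 * ta) * Real.exp (-lam') ≤ 1

/-- Bound for the number of coordinates of a bad event. -/
def KK3 (nC kap K1 : ℕ) : ℕ := (nC + 2) * (kap + 3) ^ 6 * (K1 + 2)

/-- Conditions for one bite (`nC` colours, degrees `kap`, `np` walks, `lam'` for the sampling). -/
structure Prm.BiteOk (P : Prm) (nC kap np : ℕ) (lam' h : ℝ) : Prop where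
  th0 : 0 < P.th
  th1 : P.th ≤ 1 / 200
  de0 : 0 < P.de
  r0 : 0 ≤ P.r
  r1 : P.r ≤ 1 / 8
  eps : P.eps = 4 * P.ta * lam' / np
  eps1 : 12 * P.eps ≤ 1
  ta1 : 1 ≤ P.ta
  lam1 : 1 ≤ P.lam
  lam'1 : 1 ≤ lam'
  np1 : 64 * lam' ≤ np
  h1 : 1 ≤ h
  hLam : h * P.de ≤ P.Lam
  thLam : 800 * P.th * P.Lam ≤ 1
  phib1 : P.phib ≤ 1 / 8
  b1th : P.b1 ≤ P.th
  B4th : P.B4 ≤ P.th / 2
  k4 : 9 * √(P.lam * P.th * P.de) + 8 * P.lam * √P.de ≤ P.th
  lll1 : LLL1 np P.ta kap lam'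
  lll2 : LLL2 nC kap (KK1 kap (np * P.ta)) (KK2 kap (np * P.ta)) P.lam

/-! ## 9. The parameters -/

/-- The parameters of a bite: `θ = N^-60`, `λ = N^2`, `τ = N^80`, `eps = 4 N^-165`,
`Λ = 4 N^-160`. -/
noncomputable def prm (N : ℕ) (de r : ℝ) : Prm where
  th := 1 / (N : ℝ) ^ 60
  de := de
  r := r
  lam := (N : ℝ) ^ 2
  eps := 4 / (N : ℝ) ^ 165
  Lam := 4 / (N : ℝ) ^ 160
  ta := N ^ 80

/-- Parameter regime of one bite. -/
structure Reg (N : ℕ) (D de r h : ℝ) : Prop where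
  D0 : (N : ℝ) ^ 234 ≤ D
  D1 : D ≤ 2 * (N : ℝ) ^ 480
  de0 : 0 < de
  de1 : de ≤ 2 / D
  r0 : 0 ≤ r
  r1 : r ≤ 200 * (N : ℝ) ^ 232 / D
  h0 : (N : ℝ) ^ 74 / 2 ≤ h
  hde : h * de ≤ 4 / (N : ℝ) ^ 160

/-- The conclusion of the round lemma for `N` and `K`. -/
def RoundFor (N K : ℕ) : Prop :=
  ∀ (V : Type) [Fintype V] [DecidableEq V] (E : V → V → Prop), DegEq E K →
    ∃ (M : Fin (N ^ 320) → V → V → Prop) (rk : Fin (N ^ 320) → V → ℕ),
      (∀ c c' u v, M c u v → M c' u v → c = c') ∧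
      (∀ c u v, M c u v → E u v) ∧
      (∀ c u v v', M c u v → M c u v' → v = v') ∧
      (∀ c u u' v, M c u v → M c u' v → u = u') ∧
      (∀ c u v, M c u v → rk c u < rk c v) ∧
      (∀ u, N ^ 320 ≤ ({c | ∃ v, M c u v} : Set (Fin (N ^ 320))).ncard + 2 * N ^ 74) ∧
      (∀ v, N ^ 320 ≤ ({c | ∃ u, M c u v} : Set (Fin (N ^ 320))).ncard + 2 * N ^ 74)

end Pool.Agent.NIB
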