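import Mathlib
import Pool.Agent.Helper82_NIB.Defs

/-!
# NIB: simple lemmas, proved
-/

set_option autoImplicit false
set_option linter.unusedSectionVars false

open Finset Matrix

namespace Pool.Agent.NIB

section node

variable {V : Type}

@[simp] lemma mat_tf (x : V → V → ℝ) (u v : V) : mat x (u, true) (v, false) = x u v := rfl
@[simp] lemma mat_ft (x : V → V → ℝ) (u v : V) : mat x (v, false) (u, true) = x u v := rfl
@[simp] lemma mat_tt (x : V → V → ℝ) (u v : V) : mat x (u, true) (v, true) = 0 := rfl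
@[simp] lemma mat_ff (x : V → V → ℝ) (u v : V) : mat x (u, false) (v, false) = 0 := rfl

lemma mat_symm (x : V → V → ℝ) (a b : V × Bool) : mat x a b = mat x b a := by
  rcases a with ⟨a, _ | _⟩ <;> rcases b with ⟨b, _ | _⟩ <;> rfl

lemma mat_nonneg {x : V → V → ℝ} (h : ∀ u v, 0 ≤ x u v) (a b : V × Bool) : 0 ≤ mat x a b := by
  rcases a with ⟨a, _ | _⟩ <;> rcases b with ⟨b, _ | _⟩ <;> simp [h]

lemma mat_le {x : V → V → ℝ} {d : ℝ} (hd : 0 ≤ d) (h : ∀ u v, x u v ≤ d) (a b : V × Bool) :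
    mat x a b ≤ d := by
  rcases a with ⟨a, _ | _⟩ <;> rcases b with ⟨b, _ | _⟩ <;> simp [h, hd]

lemma mat_add (x y : V → V → ℝ) (a b : V × Bool) :
    mat (fun u v => x u v + y u v) a b = mat x a b + mat y a b := by
  rcases a with ⟨a, _ | _⟩ <;> rcases b with ⟨b, _ | _⟩ <;> simp

lemma mat_sub (x y : V → V → ℝ) (a b : V × Bool) :
    mat (fun u v => x u v - y u v) a b = mat x a b - mat y a b := by
  rcases a with ⟨a, _ | _⟩ <;> rcases b with ⟨b, _ | _⟩ <;> simp

lemma mat_mul (x y : V → V → ℝ) (a b : V × Bool) :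
    mat (fun u v => x u v * y u v) a b = mat x a b * mat y a b := by
  rcases a with ⟨a, _ | _⟩ <;> rcases b with ⟨b, _ | _⟩ <;> simp

variable [Fintype V]

lemma sum_node (f : V × Bool → ℝ) : ∑ w, f w = ∑ u, f (u, true) + ∑ v, f (v, false) := by
  rw [Fintype.sum_prod_type, ← Finset.sum_add_distrib]
  exact Finset.sum_congr rfl fun u _ => by simp

@[simp] lemma rs_out (x : V → V → ℝ) (u : V) : rs x (u, true) = ∑ v, x u v := by
  simp [rs, sum_node]

@[simp] lemma rs_inn (x : V → V → ℝ) (v : V) : rs x (v, false) = ∑ u, x u v := by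
  simp [rs, sum_node]

lemma rs_nonneg {x : V → V → ℝ} (h : ∀ u v, 0 ≤ x u v) (w : V × Bool) : 0 ≤ rs x w :=
  Finset.sum_nonneg fun _ _ => mat_nonneg h _ _

lemma rs_mono {x y : V → V → ℝ} (h : ∀ u v, x u v ≤ y u v) (w : V × Bool) : rs x w ≤ rs y w := by
  rcases w with ⟨w, _ | _⟩
  · simpa using Finset.sum_le_sum fun u _ => h u w
  · simpa using Finset.sum_le_sum fun v _ => h w v

lemma rs_sub (x y : V → V → ℝ) (w : V × Bool) :
    rs (fun u v => x u v - y u v) w = rs x w - rs y w := by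
  simp only [rs, mat_sub, Finset.sum_sub_distrib]

lemma isSub_mat [DecidableEq V] {x : V → V → ℝ} (h : ∀ u v, 0 ≤ x u v) (hr : ∀ w, rs x w ≤ 1) :
    IsSub (mat x) :=
  ⟨mat_nonneg h, mat_symm x, hr⟩

/-- Sums over arcs as sums over pairs of nodes. -/
lemma sum_mat_mul (x : V → V → ℝ) (F : V × Bool → V × Bool → ℝ) :
    ∑ a, ∑ b, mat x a b * F a b
      = ∑ u, ∑ v, x u v * (F (u, true) (v, false) + F (v, false) (u, true)) := by
  rw [sum_node]
  simp only [sum_node, mat_tt, mat_tf, mat_ft, mat_ff, zero_mul, Finset.sum_const_zero, zero_add,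
    add_zero]
  rw [Finset.sum_comm (f := fun v u => x u v * F (v, false) (u, true)), ← Finset.sum_add_distrib]
  refine Finset.sum_congr rfl fun u _ => ?_
  rw [← Finset.sum_add_distrib]
  exact Finset.sum_congr rfl fun v _ => by ring

/-- `Q(grad f) = E(f)`. -/
lemma Qf_grad [DecidableEq V] (x : V → V → ℝ) (f : V × Bool → ℝ) :
    Qf x (grad f) = En (mat x) f := by
  unfold Qf En grad
  rw [sum_mat_mul x fun a b => (f a - f b) ^ 2, Finset.mul_sum]
  refine Finset.sum_congr rfl fun u _ => ?_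
  rw [Finset.mul_sum]
  exact Finset.sum_congr rfl fun v _ => by ring

/-- `dev (plu f) = ∑ f (R - θ s°)`. -/
lemma dev_plu (th : ℝ) (xo sg : V → V → ℝ) (f : V × Bool → ℝ) :
    dev th xo sg (plu f) = ∑ w, f w * (rs sg w - th * rs xo w) := by
  unfold dev plu
  rw [sum_node]
  simp only [rs_out, rs_inn, Finset.mul_sum, ← Finset.sum_sub_distrib]
  rw [Finset.sum_comm (f := fun v u => f (v, false) * (sg u v - th * xo u v)),
    ← Finset.sum_add_distrib]
  refine Finset.sum_congr rfl fun u _ => ?_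
  rw [← Finset.sum_add_distrib]
  exact Finset.sum_congr rfl fun v _ => by ring

/-- `dev (grad f) = ∑ sgn f (R - θ s°)`. -/
lemma dev_grad (th : ℝ) (xo sg : V → V → ℝ) (f : V × Bool → ℝ) :
    dev th xo sg (grad f) = ∑ w, sgn w * f w * (rs sg w - th * rs xo w) := by
  unfold dev grad
  rw [sum_node]
  simp only [rs_out, rs_inn, Finset.mul_sum, ← Finset.sum_sub_distrib, sgn]
  rw [Finset.sum_comm (f := fun v u => (if (false : Bool) = true then (1 : ℝ) else -1) *
    f (v, false) * (sg u v - th * xo u v)), ← Finset.sum_add_distrib]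
  refine Finset.sum_congr rfl fun u _ => ?_
  rw [← Finset.sum_add_distrib]
  exact Finset.sum_congr rfl fun v _ => by simp; ring

/-- Rows of the node matrix have at most `kap` non-zero entries. -/
lemma mat_row_ncard {x : V → V → ℝ} {kap : ℕ} (h1 : ∀ u, ({v | x u v ≠ 0} : Set V).ncard ≤ kap)
    (h2 : ∀ v, ({u | x u v ≠ 0} : Set V).ncard ≤ kap) (w : V × Bool) :
    ({w' | mat x w w' ≠ 0} : Set (V × Bool)).ncard ≤ kap := by
  rcases w with ⟨w, _ | _⟩
  · have h3 : ({w' | mat x (w, false) w' ≠ 0} : Set (V × Bool)) =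
        (fun u => (u, true)) '' {u | x u w ≠ 0} := by
      ext ⟨u, b⟩
      cases b <;> simp
    rw [h3, Set.ncard_image_of_injective _ (fun a b h => congrArg Prod.fst h)]
    exact h2 w
  · have h3 : ({w' | mat x (w, true) w' ≠ 0} : Set (V × Bool)) =
        (fun u => (u, false)) '' {v | x w v ≠ 0} := by
      ext ⟨u, b⟩
      cases b <;> simp
    rw [h3, Set.ncard_image_of_injective _ (fun a b h => congrArg Prod.fst h)]
    exact h1 w

end node

section lin

variable {W : Type} [Fintype W] [DecidableEq W]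

/-- `(1 - A) G = 1 - P^τ`. -/
lemma one_sub_mul_grn (A : Matrix W W ℝ) (ta : ℕ) : (1 - A) * grn A ta = 1 - laz A ^ ta := by
  have h1 : (1 - A) = (2 : ℝ) • (1 - laz A) := by
    unfold laz
    rw [smul_sub, smul_smul]
    norm_num
    rw [two_smul]
    abel
  rw [grn, h1, Matrix.smul_mul, Matrix.mul_smul, smul_smul]
  norm_num
  rw [mul_neg_geom_sum]

lemma laz_nonneg {B : Matrix W W ℝ} (hB : ∀ a b, 0 ≤ B a b) (a b : W) : 0 ≤ laz B a b := by
  have h1 : (0 : ℝ) ≤ (1 : Matrix W W ℝ) a b := by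
    rw [Matrix.one_apply]
    split_ifs <;> norm_num
  have h2 := hB a b
  simp only [laz, Matrix.smul_apply, Matrix.add_apply, smul_eq_mul]
  positivity

lemma laz_row {B : Matrix W W ℝ} (hB : ∀ a, ∑ b, B a b ≤ 1) (a : W) : ∑ b, laz B a b ≤ 1 := by
  have h1 : ∑ b, (1 : Matrix W W ℝ) a b = 1 := by simp [Matrix.one_apply]
  have h2 := hB a
  simp only [laz, Matrix.smul_apply, Matrix.add_apply, smul_eq_mul]
  rw [← Finset.mul_sum, Finset.sum_add_distrib, h1]
  linarith

lemma laz_pow_nonneg {B : Matrix W W ℝ} (hB : ∀ a b, 0 ≤ B a b) (j : ℕ) (a b : W) :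
    0 ≤ (laz B ^ j) a b := by
  induction j generalizing a b with
  | zero =>
    rw [pow_zero, Matrix.one_apply]
    split_ifs <;> norm_num
  | succ j ih =>
    rw [pow_succ, Matrix.mul_apply]
    exact Finset.sum_nonneg fun c _ => mul_nonneg (ih a c) (laz_nonneg hB c b)

lemma laz_pow_row {B : Matrix W W ℝ} (hB0 : ∀ a b, 0 ≤ B a b) (hB : ∀ a, ∑ b, B a b ≤ 1)
    (j : ℕ) (a : W) : ∑ b, (laz B ^ j) a b ≤ 1 := by
  induction j generalizing a with
  | zero => simp [Matrix.one_apply]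
  | succ j ih =>
    simp only [pow_succ, Matrix.mul_apply]
    rw [Finset.sum_comm]
    calc ∑ c, ∑ b, (laz B ^ j) a c * laz B c b = ∑ c, (laz B ^ j) a c * ∑ b, laz B c b := by
          simp only [Finset.mul_sum]
      _ ≤ ∑ c, (laz B ^ j) a c * 1 := Finset.sum_le_sum fun c _ =>
          mul_le_mul_of_nonneg_left (laz_row hB c) (laz_pow_nonneg hB0 j a c)
      _ ≤ 1 := by simpa using ih a

lemma laz_symm {B : Matrix W W ℝ} (hB : ∀ a b, B a b = B b a) : (laz B)ᵀ = laz B := by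
  ext a b
  simp only [laz, Matrix.transpose_apply, Matrix.smul_apply, Matrix.add_apply, smul_eq_mul,
    Matrix.one_apply]
  rw [hB b a]
  by_cases h : a = b
  · simp [h]
  · have h' : ¬ b = a := fun e => h e.symm
    simp [h, h']

lemma laz_pow_symm {B : Matrix W W ℝ} (hB : ∀ a b, B a b = B b a) (j : ℕ) (a b : W) :
    (laz B ^ j) a b = (laz B ^ j) b a := by
  have h : (laz B ^ j)ᵀ = laz B ^ j := by rw [Matrix.transpose_pow, laz_symm hB]
  calc (laz B ^ j) a b = (laz B ^ j)ᵀ b a := rfl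
    _ = (laz B ^ j) b a := by rw [h]

/-- Sup norm contraction of nonnegative matrices with row sums at most one. -/
lemma abs_mulVec_le {P : Matrix W W ℝ} (hP0 : ∀ a b, 0 ≤ P a b) (hP : ∀ a, ∑ b, P a b ≤ 1)
    {f : W → ℝ} {M : ℝ} (hM : 0 ≤ M) (hf : ∀ a, |f a| ≤ M) (a : W) : |(P *ᵥ f) a| ≤ M := by
  have h1 : |(P *ᵥ f) a| ≤ ∑ b, P a b * M := by
    refine (Finset.abs_sum_le_sum_abs _ _).trans (Finset.sum_le_sum fun b _ => ?_)
    rw [abs_mul, abs_of_nonneg (hP0 a b)]
    exact mul_le_mul_of_nonneg_left (hf b) (hP0 a b)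
  rw [← Finset.sum_mul] at h1
  exact h1.trans (mul_le_of_le_one_left hM (hP a))

end lin

section prob

variable {I α : Type} [Fintype I] [DecidableEq I] [Fintype α]

lemma pw_nonneg {wt : I → α → ℝ} (h : IsWt wt) (ω : I → α) : 0 ≤ pw wt ω :=
  Finset.prod_nonneg fun i _ => h.nonneg i _

lemma sum_pw {wt : I → α → ℝ} (h : IsWt wt) : ∑ ω, pw wt ω = 1 := by
  unfold pw
  rw [← Fintype.piFinset_univ, Finset.sum_prod_piFinset]
  simp [h.one]

lemma Ex_const {wt : I → α → ℝ} (h : IsWt wt) (c : ℝ) : Ex wt (fun _ => c) = c := by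
  simp [Ex, ← Finset.sum_mul, sum_pw h]

lemma Ex_add (wt : I → α → ℝ) (F G : (I → α) → ℝ) :
    Ex wt (fun ω => F ω + G ω) = Ex wt F + Ex wt G := by
  simp [Ex, mul_add, Finset.sum_add_distrib]

lemma Ex_sub (wt : I → α → ℝ) (F G : (I → α) → ℝ) :
    Ex wt (fun ω => F ω - G ω) = Ex wt F - Ex wt G := by
  simp [Ex, mul_sub, Finset.sum_sub_distrib]

lemma Ex_mul (wt : I → α → ℝ) (c : ℝ) (F : (I → α) → ℝ) :
    Ex wt (fun ω => c * F ω) = c * Ex wt F := by
  simp only [Ex, Finset.mul_sum]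
  exact Finset.sum_congr rfl fun ω _ => by ring

lemma Ex_sum {ι : Type*} (wt : I → α → ℝ) (s : Finset ι) (F : ι → (I → α) → ℝ) :
    Ex wt (fun ω => ∑ i ∈ s, F i ω) = ∑ i ∈ s, Ex wt (F i) := by
  simp only [Ex, Finset.mul_sum]
  rw [Finset.sum_comm]

lemma Ex_mono {wt : I → α → ℝ} (h : IsWt wt) {F G : (I → α) → ℝ} (hFG : ∀ ω, F ω ≤ G ω) :
    Ex wt F ≤ Ex wt G :=
  Finset.sum_le_sum fun ω _ => mul_le_mul_of_nonneg_left (hFG ω) (pw_nonneg h ω)

lemma Ex_nonneg {wt : I → α → ℝ} (h : IsWt wt) {F : (I → α) → ℝ} (hF : ∀ ω, 0 ≤ F ω) :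
    0 ≤ Ex wt F :=
  Finset.sum_nonneg fun ω _ => mul_nonneg (pw_nonneg h ω) (hF ω)

lemma Pr_nonneg {wt : I → α → ℝ} (h : IsWt wt) (A : Set (I → α)) : 0 ≤ Pr wt A :=
  Ex_nonneg h fun ω => Set.indicator_nonneg (fun _ _ => zero_le_one) ω

lemma Pr_mono {wt : I → α → ℝ} (h : IsWt wt) {A B : Set (I → α)} (hAB : A ⊆ B) :
    Pr wt A ≤ Pr wt B :=
  Ex_mono h fun ω => Set.indicator_le_indicator_of_subset hAB (fun _ => zero_le_one) ω

lemma Pr_union_le {wt : I → α → ℝ} (h : IsWt wt) (A B : Set (I → α)) :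
    Pr wt (A ∪ B) ≤ Pr wt A + Pr wt B := by
  rw [Pr, Pr, Pr, ← Ex_add]
  refine Ex_mono h fun ω => ?_
  by_cases h1 : ω ∈ A <;> by_cases h2 : ω ∈ B <;> simp [h1, h2]

/-- Expectation of a function of one coordinate. -/
lemma Ex_coord {wt : I → α → ℝ} (h : IsWt wt) (i : I) (f : α → ℝ) :
    Ex wt (fun ω => f (ω i)) = ∑ s, wt i s * f s := by
  have h1 : ∀ ω : I → α, pw wt ω * f (ω i)
      = ∏ j, (wt j (ω j) * if j = i then f (ω j) else 1) := by
    intro ω
    rw [Finset.prod_mul_distrib, Finset.prod_ite_eq' univ i (fun j => f (ω j))]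
    simp [pw]
  unfold Ex
  simp only [h1]
  rw [← Fintype.piFinset_univ, Finset.sum_prod_piFinset univ
    (fun j s => wt j s * if j = i then f s else 1)]
  rw [← Finset.mul_prod_erase univ _ (Finset.mem_univ i)]
  have h2 : ∏ j ∈ univ.erase i, (∑ s, wt j s * if j = i then f s else 1) = 1 := by
    refine Finset.prod_eq_one fun j hj => ?_
    have hne : j ≠ i := Finset.ne_of_mem_erase hj
    simp [hne, h.one]
  rw [h2]
  simp

end prob

/-- Monotonicity of the invariants of a state. -/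
lemma St.Good.mono {V C : Type} [Fintype V] {S : St V C} {E : V → V → Prop}
    {de r h de' r' h' : ℝ} (hS : S.Good E de r h) (h1 : de ≤ de') (h2 : r ≤ r') (h3 : h ≤ h') :
    S.Good E de' r' h' :=
  { hS with
    xle := fun c u v => (hS.xle c u v).trans h1
    rowH := fun c w hw => by have := hS.rowH c w hw; linarith
    hcnt := fun w => (hS.hcnt w).trans h3 }

end Pool.Agent.NIB
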