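import Mathlib
import Pool.Agent.Helper82_NIB.Basic
import Pool.Agent.Helper14_LA.Main

/-!
# NIB: statements of the modules.  `XxxStmt` is the statement of module XXX.
-/

set_option autoImplicit false

open Finset Matrix

namespace Pool.Agent.NIB

/-! ## P. Probability -/

/-- BERN: Bernstein inequality by exposing the coordinates in increasing order. -/
def BernStmt : Prop :=
  ∀ (I α : Type) [Fintype I] [DecidableEq I] [Fintype α] [DecidableEq α]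
    (wt : I → α → ℝ) (ord : I → ℕ) (d : I → α) (F : (I → α) → ℝ)
    (a : I → α → ℝ) (b : I → α → I → α → ℝ) (c : I → α → ℝ) (Vr B L : ℝ),
    IsWt wt → Function.Injective ord →
    (∀ i s, 0 ≤ a i s) → (∀ i s j t, 0 ≤ b i s j t) →
    (∀ i s ω, |F (Function.update ω i s) - F (Function.update ω i (d i))| ≤
      a i s + ∑ j with ord i < ord j, b i s j (ω j)) →
    (∀ i s, a i s + ∑ j with ord i < ord j, ∑ t, wt j t * b i s j t ≤ c i s) →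
    (∑ i, ∑ s, wt i s * c i s ^ 2 ≤ Vr) → (∀ i s, c i s ≤ B) → 0 ≤ B → 0 ≤ L →
    Pr wt {ω | 2 * √(L * Vr) + 4 * L * B < |F ω - Ex wt F|} ≤ 2 * Real.exp (-L)

/-- IND: special case of BERN, sum of functions of single coordinates. -/
def IndStmt : Prop :=
  ∀ (I α : Type) [Fintype I] [DecidableEq I] [Fintype α] [DecidableEq α]
    (wt : I → α → ℝ) (f : I → α → ℝ) (Vr B L : ℝ),
    IsWt wt → (∀ i s, 0 ≤ f i s) → (∀ i s, f i s ≤ B) → 0 ≤ B → 0 ≤ L →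
    (∑ i, ∑ s, wt i s * f i s ^ 2 ≤ Vr) →
    Pr wt {ω | 2 * √(L * Vr) + 4 * L * B < |∑ i, f i (ω i) - ∑ i, ∑ s, wt i s * f i s|} ≤
      2 * Real.exp (-L)

/-- COND: conditionally centred sums.  `ty` is the revealed information of a coordinate. -/
def CondStmt : Prop :=
  ∀ (I α β : Type) [Fintype I] [DecidableEq I] [Fintype α] [DecidableEq α] [DecidableEq β]
    (wt : I → α → ℝ) (ty : α → β) (T : Finset I) (y : I → α → ℝ) (k : I → (I → α) → ℝ)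
    (κ v : I → ℝ) (Vr B L : ℝ),
    IsWt wt →
    (∀ i ∈ T, ∀ t, ∑ s with ty s = t, wt i s * y i s = 0) →
    (∀ i ∈ T, ∀ t, ∑ s with ty s = t, wt i s * y i s ^ 2 ≤ v i * ∑ s with ty s = t, wt i s) →
    (∀ i ∈ T, ∀ s, |y i s| ≤ 1) → (∀ i ∈ T, 0 ≤ v i) →
    (∀ i ∈ T, ∀ ω ω', (∀ j, ty (ω j) = ty (ω' j)) → k i ω = k i ω') →
    (∀ i ∈ T, ∀ ω, |k i ω| ≤ κ i) → (∀ i ∈ T, κ i ≤ B) → 0 ≤ B →
    (∑ i ∈ T, κ i ^ 2 * v i ≤ Vr) → 0 ≤ L →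
    Pr wt {ω | 2 * √(L * Vr) + 4 * L * B < |∑ i ∈ T, k i ω * y i (ω i)|} ≤ 2 * Real.exp (-L)

/-- LLLW: symmetric local lemma for weighted product spaces. -/
def LllStmt : Prop :=
  ∀ (I α ι : Type) [Fintype I] [DecidableEq I] [Fintype α] [DecidableEq α] [Fintype ι]
    [DecidableEq ι] (wt : I → α → ℝ) (A : ι → Set (I → α)) (W : ι → Finset I)
    (K1 K2 : ℕ) (p : ℝ),
    IsWt wt →
    (∀ i ω ω', (∀ v ∈ W i, ω v = ω' v) → ω ∈ A i → ω' ∈ A i) →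
    (∀ i, (W i).card ≤ K1) → (∀ v, ({i | v ∈ W i} : Set ι).ncard ≤ K2) →
    1 ≤ K1 → 1 ≤ K2 →
    (∀ i, Pr wt (A i) ≤ p) → 4 * (K1 : ℝ) * K2 * p ≤ 1 →
    ∃ ω, (∀ i, 0 < wt i (ω i)) ∧ ∀ i, ω ∉ A i

/-! ## L. Linear algebra and sampling -/

/-- SPEC: quadratic forms of polynomials in a symmetric substochastic matrix. -/
def SpecStmt : Prop :=
  ∀ (W : Type) [Fintype W] [DecidableEq W] (A : Matrix W W ℝ), IsSub A →
    ∀ (p : Polynomial ℝ) (M : ℝ), (∀ t : ℝ, -1 ≤ t → t ≤ 1 → p.eval t ≤ M) →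
      ∀ y : W → ℝ, y ⬝ᵥ (Polynomial.aeval A p *ᵥ y) ≤ M * nsq y

/-- ENG: elementary facts on the energy. -/
def EngStmt : Prop :=
  ∀ (W : Type) [Fintype W] [DecidableEq W] (A : Matrix W W ℝ), IsSub A →
    (∀ f, 0 ≤ En A f) ∧ (∀ f, En A f ≤ f ⬝ᵥ (f - A *ᵥ f)) ∧ (∀ f, En A f ≤ 2 * nsq f) ∧
    (∀ f g, En A (f + g) ≤ 2 * En A f + 2 * En A g) ∧
    (∀ f g h, En A (f + g + h) ≤ 3 * (En A f + En A g + En A h)) ∧
    (∀ f, En A (-f) = En A f) ∧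
    (∀ w de, (∀ a b, A a b ≤ de) → nsq (A *ᵥ dl w) ≤ de)

/-- DTAU: paper (d). -/
def DtauStmt : Prop :=
  ∀ (W : Type) [Fintype W] [DecidableEq W] (A : Matrix W W ℝ) (de : ℝ) (ta : ℕ), IsSub A →
    (∀ a b, A a b ≤ de) → 1 ≤ ta → ∀ w, En A (A *ᵥ (laz A ^ ta *ᵥ dl w)) ≤ de / ta

/-- EGR: paper (e). -/
def EgrStmt : Prop :=
  ∀ (W : Type) [Fintype W] [DecidableEq W] (A : Matrix W W ℝ) (de : ℝ) (ta : ℕ), IsSub A →
    (∀ a b, A a b ≤ de) → 1 ≤ ta → ∀ w, En A (A *ᵥ (grn A ta *ᵥ dl w)) ≤ de * ta / 2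

/-- GAM: paper (f). -/
def GamStmt : Prop :=
  ∀ (W : Type) [Fintype W] [DecidableEq W] (A : Matrix W W ℝ) (de : ℝ) (ta : ℕ), IsSub A →
    (∀ a b, A a b ≤ de) → 1 ≤ ta → ∀ w, 0 ≤ nnf A ta w ∧ nnf A ta w ≤ de * ta / 2 ∧
      ∑ w', A w w' * En A (A *ᵥ (grn A ta *ᵥ (dl w - dl w'))) ≤
        ∑ w', A w w' * nnf A ta w' - nnf A ta w + 2 * de

/-- SMO: paper (h), smoothing. -/
def SmoStmt : Prop :=
  ∀ (W : Type) [Fintype W] [DecidableEq W] (B : Matrix W W ℝ) (ta : ℕ) (f : W → ℝ) (M : ℝ),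
    (∀ a b, 0 ≤ B a b) → (∀ a, ∑ b, B a b ≤ 1) → 1 ≤ ta → 0 ≤ M → (∀ a, |f a| ≤ M) →
    ∀ a, |(laz B ^ ta *ᵥ (B *ᵥ f - f)) a| ≤ 2 / √ta * M

/-- SMP1: concentration of the sampled Green function. -/
def Smp1Stmt : Prop :=
  ∀ (W : Type) [Fintype W] [DecidableEq W] (A : Matrix W W ℝ) (de lam' : ℝ) (np ta : ℕ),
    IsSub A → (∀ a b, A a b ≤ de) → 0 ≤ de → 1 ≤ ta → 1 ≤ lam' → 64 * lam' ≤ np → ∀ w,
    Pr (swt A np ta) {ω | 4 * ta * lam' / np * de <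
      nsq (A *ᵥ (ghs ω w - grn A ta *ᵥ dl w))} ≤ 2 * Real.exp (-lam')

/-- SMP2: concentration of the column counts. -/
def Smp2Stmt : Prop :=
  ∀ (W : Type) [Fintype W] [DecidableEq W] (A : Matrix W W ℝ) (lam' : ℝ) (np ta : ℕ),
    IsSub A → 1 ≤ ta → 1 ≤ lam' → 64 * lam' ≤ np → ∀ z,
    Pr (swt A np ta) {ω | 2 * (np : ℝ) * ta < ∑ w, (cnt ω w z : ℝ)} ≤ 2 * Real.exp (-lam')

/-- SMPW: the weights of the sampling space. -/
def SmpwStmt : Prop :=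
  ∀ (W : Type) [Fintype W] [DecidableEq W] (A : Matrix W W ℝ) (np ta : ℕ), IsSub A →
    IsWt (swt A np ta)

/-- SMP: the sampling lemma. -/
def SmpStmt : Prop :=
  ∀ (W : Type) [Fintype W] [DecidableEq W] (A : Matrix W W ℝ) (de lam' : ℝ) (np ta kap : ℕ),
    IsSub A → (∀ a b, A a b ≤ de) → 0 ≤ de → (∀ a, ({b | A a b ≠ 0} : Set W).ncard ≤ kap) →
    1 ≤ ta → 1 ≤ lam' → 64 * lam' ≤ np → LLL1 np ta kap lam' →
    ∃ gh : W → W → ℝ, GhOk A gh de (4 * ta * lam' / np) ta (np * ta)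

/-! ## S. Selection theorem -/

/-- SWT: the weights of the random bite. -/
def SwtStmt : Prop :=
  ∀ (V C : Type) [Fintype V] [DecidableEq V] [Fintype C] [DecidableEq C] (b : Bm V C)
    (de Lam h : ℝ) (kap : ℕ), b.Ok de Lam h kap →
    IsWt b.wt ∧ (∀ c a, 0 ≤ b.q c a) ∧ (∀ c a, b.q c a ≤ 1 / 25) ∧ (∀ a, ∑ c, b.q c a ≤ 1 / 100) ∧
    (∀ c a, 1 / 2 ≤ ∏ a' ∈ b.blk c a, (1 - b.q c a')) ∧ (∀ c a, 0 ≤ b.pac c a) ∧
    (∀ c a, b.pac c a ≤ 1) ∧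
    (∀ c w, ∑ w', mat (fun u v => b.q c (u, v)) w w' ≤ 8 * b.th)

/-- SMEAN: the selection probability. -/
def SmeanStmt : Prop :=
  ∀ (V C : Type) [Fintype V] [DecidableEq V] [Fintype C] [DecidableEq C] (b : Bm V C)
    (de Lam h : ℝ) (kap : ℕ), b.Ok de Lam h kap →
    ∀ c u v, Ex b.wt (fun ω => b.sg c ω u v) = b.th * b.xo c u v

/-- SDET: deterministic properties of the selected arcs. -/
def SdetStmt : Prop :=
  ∀ (V C : Type) [Fintype V] [DecidableEq V] [Fintype C] [DecidableEq C] (b : Bm V C)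
    (de Lam h : ℝ) (kap : ℕ), b.Ok de Lam h kap → ∀ ω : Crd V C → Val C,
    (∀ c u v, b.sg c ω u v = 0 ∨ b.sg c ω u v = 1) ∧
    (∀ c u v, b.ub c ω u v = 0 ∨ b.ub c ω u v = 1) ∧
    (∀ c u v, b.sg c ω u v = 1 → b.x c u v ≠ 0) ∧
    (∀ c w, rs (b.sg c ω) w ≤ 1) ∧
    (∀ c u v, b.sg c ω u v = 1 →
      ¬ colOf (ω (.inr (c, b.st c u))) c ∧ colOf (ω (.inr (c, v))) c) ∧
    (∀ c c' u v, c ≠ c' → b.sg c ω u v = 1 → b.sg c' ω u v = 0) ∧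
    (∀ c c' u v, c ≠ c' → b.sg c ω u v = 1 → b.ub c' ω u v = 1)

/-- SIN1: pointwise influences. -/
def Sin1Stmt : Prop :=
  ∀ (V C : Type) [Fintype V] [DecidableEq V] [Fintype C] [DecidableEq C] (b : Bm V C)
    (de Lam h : ℝ) (kap : ℕ) (kp : C → V → V → ℝ), b.Ok de Lam h kap →
    ∀ i s ω, |∑ c, dev b.th (b.xo c) (b.sg c (Function.update ω i s)) (kp c) -
        ∑ c, dev b.th (b.xo c) (b.sg c (Function.update ω i none)) (kp c)| ≤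
      b.ifa kp i s + ∑ j with b.ordI i < b.ordI j, b.ifb kp i s j (ω j)

/-- SIN2: averaged influences. -/
def Sin2Stmt : Prop :=
  ∀ (V C : Type) [Fintype V] [DecidableEq V] [Fintype C] [DecidableEq C] (b : Bm V C)
    (de Lam h : ℝ) (kap : ℕ) (kp : C → V → V → ℝ), b.Ok de Lam h kap →
    Function.Injective b.ordI ∧
    (∀ i s, b.ifa kp i s + ∑ j with b.ordI i < b.ordI j, ∑ t, b.wt j t * b.ifb kp i s j t ≤
      b.ifc kp i s)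

/-- SVA1: variance of the influences of the arcs. -/
def Sva1Stmt : Prop :=
  ∀ (V C : Type) [Fintype V] [DecidableEq V] [Fintype C] [DecidableEq C] (b : Bm V C)
    (de Lam h : ℝ) (kap : ℕ) (kp : C → V → V → ℝ), b.Ok de Lam h kap →
    ∑ a, ∑ s, b.wt (.inl a) s * b.ifc kp (.inl a) s ^ 2 ≤ 18 * b.th * ∑ c, Qf (b.x c) (kp c)

/-- SVA2: variance of the influences of the labels. -/
def Sva2Stmt : Prop :=
  ∀ (V C : Type) [Fintype V] [DecidableEq V] [Fintype C] [DecidableEq C] (b : Bm V C)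
    (de Lam h : ℝ) (kap : ℕ) (kp : C → V → V → ℝ), b.Ok de Lam h kap →
    ∑ p, ∑ s, b.wt (.inr p) s * b.ifc kp (.inr p) s ^ 2 ≤ 2 * b.th * ∑ c, Qf (b.x c) (kp c)

/-- SVA3: sup of the influences. -/
def Sva3Stmt : Prop :=
  ∀ (V C : Type) [Fintype V] [DecidableEq V] [Fintype C] [DecidableEq C] (b : Bm V C)
    (de Lam h M : ℝ) (kap : ℕ) (kp : C → V → V → ℝ), b.Ok de Lam h kap → 0 ≤ M →
    (∀ c u v, |kp c u v| ≤ M) → ∀ i s, b.ifc kp i s ≤ 2 * M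

/-- SDEV: concentration of the noise functionals. -/
def SdevStmt : Prop :=
  ∀ (V C : Type) [Fintype V] [DecidableEq V] [Fintype C] [DecidableEq C] (b : Bm V C)
    (de Lam h M lam : ℝ) (kap : ℕ) (kp : C → V → V → ℝ), b.Ok de Lam h kap → 0 ≤ M →
    (∀ c u v, |kp c u v| ≤ M) → 0 ≤ lam →
    Pr b.wt {ω | 9 * √(lam * b.th * ∑ c, Qf (b.x c) (kp c)) + 8 * lam * M <
      |∑ c, dev b.th (b.xo c) (b.sg c ω) (kp c)|} ≤ 2 * Real.exp (-lam)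

/-- SO4: the event (O4). -/
def So4Stmt : Prop :=
  ∀ (V C : Type) [Fintype V] [DecidableEq V] [Fintype C] [DecidableEq C] (b : Bm V C)
    (de Lam h M lam : ℝ) (kap : ℕ) (kp : V → V → ℝ), b.Ok de Lam h kap →
    (∀ u v, |kp u v| ≤ M) → 0 ≤ M → 0 ≤ lam → ∀ c,
    Pr b.wt {ω | 9 * √(lam * b.th * Qf (b.x c) kp) + 8 * lam * M <
      |dev b.th (b.xo c) (b.sg c ω) kp|} ≤ 2 * Real.exp (-lam)

/-- SO7: the event (O7). -/
def So7Stmt : Prop :=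
  ∀ (V C : Type) [Fintype V] [DecidableEq V] [Fintype C] [DecidableEq C] (b : Bm V C)
    (de Lam h lam : ℝ) (kap : ℕ), b.Ok de Lam h kap → 0 ≤ lam → ∀ w,
    Pr b.wt {ω | 9 * √(lam * b.th * h) + 8 * lam <
      |∑ c, rs (b.sg c ω) w - b.th * ∑ c, rs (b.xo c) w|} ≤ 2 * Real.exp (-lam)

open Classical in
/-- SOWN: the number of arcs at `w` whose value has colour `c`. -/
def SownStmt : Prop :=
  ∀ (V C : Type) [Fintype V] [DecidableEq V] [Fintype C] [DecidableEq C] (b : Bm V C)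
    (de Lam h lam : ℝ) (kap : ℕ), b.Ok de Lam h kap → 1 ≤ lam → ∀ c w,
    Pr b.wt {ω | 8 * lam <
      rs (fun u v => if colOf (ω (.inl (u, v))) c then (1 : ℝ) else 0) w} ≤ 2 * Real.exp (-lam)

/-- SOM: properties of `om`. -/
def SomStmt : Prop :=
  ∀ (V C : Type) [Fintype V] [DecidableEq V] [Fintype C] [DecidableEq C] (b : Bm V C)
    (de Lam h : ℝ) (kap : ℕ), b.Ok de Lam h kap →
    ∀ c u v, b.om c u v ≤ 1 ∧ 9 / 10 ≤ b.om c u v ∧ 1 - b.om c u v ≤ 9 * b.th * Lam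

/-- SO5: the event (O5). -/
def So5Stmt : Prop :=
  ∀ (V C : Type) [Fintype V] [DecidableEq V] [Fintype C] [DecidableEq C] (b : Bm V C)
    (de Lam h lam : ℝ) (kap : ℕ), b.Ok de Lam h kap → 0 ≤ de → 0 ≤ Lam → 1 ≤ lam → ∀ c w,
    Pr b.wt {ω | 10 * √(lam * de * b.th * Lam) + 9 * lam * de <
      |∑ w', mat (b.x c) w w' * Gf b.th (b.sg c ω) w' * mat (yv (b.ub c ω) (b.om c)) w w'|} ≤
      4 * Real.exp (-lam)

/-- SO6: the event (O6). -/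
def So6Stmt : Prop :=
  ∀ (V C : Type) [Fintype V] [DecidableEq V] [Fintype C] [DecidableEq C] (b : Bm V C)
    (de Lam h lam : ℝ) (kap : ℕ), b.Ok de Lam h kap → 0 ≤ de → 0 ≤ Lam → 0 ≤ lam → ∀ c w,
    Pr b.wt {ω | 8 * b.th * Lam + 6 * √(lam * de * b.th * Lam) + 4 * lam * de <
      ∑ w', mat (b.x c) w w' * mat (b.ub c ω) w w'} ≤ 2 * Real.exp (-lam)

/-- SLOC: the bad events depend only on the coordinates in `WE`. -/
def SlocStmt : Prop :=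
  ∀ (V C J : Type) [Fintype V] [DecidableEq V] [Fintype C] [DecidableEq C] (b : Bm V C)
    (de Lam h lam : ℝ) (kap : ℕ) (kp : C → J → V → V → ℝ) (Mb : C → J → ℝ),
    b.Ok de Lam h kap → ∀ (e : EI V C J) (ω ω' : Crd V C → Val C),
    (∀ i ∈ WE b kp e, ω i = ω' i) → ω ∈ BE b kp Mb de Lam h lam e →
      ω' ∈ BE b kp Mb de Lam h lam e

/-- SCN1: number of coordinates of a bad event. -/
def Scn1Stmt : Prop :=
  ∀ (V C J : Type) [Fintype V] [DecidableEq V] [Fintype C] [DecidableEq C] (b : Bm V C)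
    (de Lam h : ℝ) (kap K1 : ℕ) (kp : C → J → V → V → ℝ), b.Ok de Lam h kap →
    (∀ c j, ({a | b.x c a.1 a.2 ≠ 0 ∧ kp c j a.1 a.2 ≠ 0} : Set (V × V)).ncard ≤ K1) →
    ∀ e : EI V C J, (WE b kp e).card ≤ KK3 (Fintype.card C) kap K1

/-- SCN2: number of bad events of a coordinate. -/
def Scn2Stmt : Prop :=
  ∀ (V C J : Type) [Fintype V] [DecidableEq V] [Fintype C] [DecidableEq C] [Fintype J]
    (b : Bm V C) (de Lam h : ℝ) (kap K2 : ℕ) (kp : C → J → V → V → ℝ), b.Ok de Lam h kap →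
    (∀ c (a : V × V), b.x c a.1 a.2 ≠ 0 → ({j | kp c j a.1 a.2 ≠ 0} : Set J).ncard ≤ K2) →
    ∀ i : Crd V C, ({e | i ∈ WE b kp e} : Set (EI V C J)).ncard ≤
      KK3 (Fintype.card C) kap K2

/-- SEL: the selection theorem. -/
def SelStmt : Prop :=
  ∀ (V C J : Type) [Fintype V] [DecidableEq V] [Fintype C] [DecidableEq C] [Fintype J]
    [DecidableEq J] (b : Bm V C) (de Lam h lam : ℝ) (kap K1 K2 : ℕ)
    (kp : C → J → V → V → ℝ) (Mb : C → J → ℝ),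
    b.Ok de Lam h kap → 0 ≤ de → 0 ≤ Lam → 1 ≤ lam →
    (∀ c j u v, |kp c j u v| ≤ Mb c j) → (∀ c j, 0 ≤ Mb c j) →
    (∀ c j, ({a | b.x c a.1 a.2 ≠ 0 ∧ kp c j a.1 a.2 ≠ 0} : Set (V × V)).ncard ≤ K1) →
    (∀ c (a : V × V), b.x c a.1 a.2 ≠ 0 → ({j | kp c j a.1 a.2 ≠ 0} : Set J).ncard ≤ K2) →
    LLL2 (Fintype.card C) kap K1 K2 lam →
    ∃ sg ub lab, SelOut b de Lam h lam kp Mb sg ub lab

/-! ## C. Correction theorem -/

/-- CIDN: the noise identities. -/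
def CidnStmt : Prop :=
  ∀ (V : Type) [Fintype V] [DecidableEq V] (D : Cd V), D.Ok →
    (∀ g : V × Bool → ℝ,
      g ⬝ᵥ D.et = -(dev D.th D.xo D.sg (grad (mat D.x *ᵥ g)) / (1 - D.th))) ∧
    (∀ w, (mat D.x *ᵥ D.Ro) w = dev D.th D.xo D.sg (plu (mat D.x *ᵥ dl w))) ∧
    (∀ w, |D.ee w| ≤ 101 / 100 * D.B4) ∧
    (∀ w, ∑ w', mat D.x w w' * rs D.sg w' ≤ 3 / 2 * D.th)

/-- CROW: row sums after the bite. -/
def CrowStmt : Prop :=
  ∀ (V : Type) [Fintype V] [DecidableEq V] (D : Cd V), D.Ok →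
    (∀ w, ∑ w', mat D.x w w' * Gf D.th D.sg w' = rs D.x w + D.drf w - D.ee w) ∧
    (∀ w, 0 ≤ D.drf w) ∧ (∀ w, D.drf w ≤ D.th / (1 - D.th) * (2 * D.r + D.de)) ∧
    (∀ w w', D.Hp w → mat D.x w w' * Gf D.th D.sg w' = (1 + D.b1) * D.Ab w w') ∧
    IsSub D.Ab ∧ 0 ≤ D.b1 ∧
    (∀ w, D.Hp w → (1 + D.b1) * (1 - ∑ w', D.Ab w w') ≤ 2 * D.r + 2 * D.b1)

/-- CPHH: the first order correction. -/
def CphhStmt : Prop :=
  ∀ (V : Type) [Fintype V] [DecidableEq V] (D : Cd V), D.Ok →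
    (∀ w, ∑ w', mat D.x w w' * Gf D.th D.sg w' * (D.phh w - D.phh w') =
      D.et w + mu (mat D.x) D.gh w ⬝ᵥ D.et - (1 - rs D.x w) * D.phh w + D.Th w) ∧
    (∀ w, |D.phh w| ≤ 101 / 100 * D.Phi) ∧
    (∀ w, |mu (mat D.x) D.gh w ⬝ᵥ D.et| ≤ 101 / 100 * D.B1) ∧
    (∀ w w', mat D.x w w' ≠ 0 →
      |D.phh w - D.phh w'| ≤ 101 / 100 * (D.el * (√(D.th * Qd (mat D.x) D.gh w w') + D.kb)))

/-- CTH: pointwise bounds of the second order term. -/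
def CthStmt : Prop :=
  ∀ (V : Type) [Fintype V] [DecidableEq V] (D : Cd V), D.Ok →
    (∀ w, 0 ≤ Gamh (mat D.x) D.gh w) ∧
    (∀ w, |D.Th w| ≤ 6 * D.th * D.Phi) ∧
    (∀ w, |D.Th w| ≤ 4 * D.el * (D.th * √D.th * √(Gamh (mat D.x) D.gh w) + D.th * D.kb))

/-- CPHF: the second order correction. -/
def CphfStmt : Prop :=
  ∀ (V : Type) [Fintype V] [DecidableEq V] (D : Cd V), D.Ok →
    (∀ w, |D.phF w| ≤ 3 * D.ta * D.th * D.Phi) ∧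
    (∀ w, D.Hp w → ∃ er : ℝ, |er| ≤ (2 * D.r + 2 * D.b1) * (3 * D.ta * D.th * D.Phi) ∧
      ∑ w', mat D.x w w' * Gf D.th D.sg w' * (D.phF w - D.phF w') =
        -D.Th w + (laz D.Ab ^ D.ta *ᵥ D.Thp) w + er)

/-- CGAM: the bound of `Γ̂`. -/
def CgamStmt : Prop :=
  ∀ (V : Type) [Fintype V] [DecidableEq V] (D : Cd V), D.Ok →
    ∃ n : V × Bool → ℝ, (∀ w, 0 ≤ n w) ∧ (∀ w, n w ≤ D.de * D.ta / 2) ∧
      (∀ w, ¬ D.Hp w → n w = 0) ∧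
      ∀ w, D.Hp w → Gamh (mat D.x) D.gh w ≤
        3 * ((D.Ab *ᵥ n) w - n w) + D.de * (6 * D.th * D.ta + 7)

/-- CSMO: the smoothed second order term. -/
def CsmoStmt : Prop :=
  ∀ (V : Type) [Fintype V] [DecidableEq V] (D : Cd V), D.Ok →
    ∀ w, |(laz D.Ab ^ D.ta *ᵥ D.Thp) w| ≤ D.beta2

/-- CS1: the corrected row sums without the burned arcs. -/
def Cs1Stmt : Prop :=
  ∀ (V : Type) [Fintype V] [DecidableEq V] (D : Cd V), D.Ok → ∀ w, D.Hp w →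
    |∑ w', mat D.x w w' * Gf D.th D.sg w' * (1 + sgn w * (D.phi w - D.phi w')) -
        (rs D.x w + D.drf w)| ≤
      101 / 100 * D.B1 + 202 / 100 * D.r * D.Phi + D.beta2 +
        (2 * D.r + 2 * D.b1) * (3 * D.ta * D.th * D.Phi)

/-- CS2: the contribution of the burned arcs. -/
def Cs2Stmt : Prop :=
  ∀ (V : Type) [Fintype V] [DecidableEq V] (D : Cd V), D.Ok →
    0 ≤ D.phib ∧ (∀ w, |D.phi w| ≤ D.phib) ∧
    ∀ w, |∑ w', mat D.x w w' * Gf D.th D.sg w' * (1 + sgn w * (D.phi w - D.phi w')) *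
        mat (yv D.ub D.om) w w'| ≤ D.B5 + 22 / 10 * D.phib * (D.B6 + 2 * D.obar)

/-- CORR: the correction theorem. -/
def CorrStmt : Prop :=
  ∀ (V : Type) [Fintype V] [DecidableEq V] (D : Cd V), D.Ok →
    ∃ x' : V → V → ℝ,
      (∀ u v, 0 ≤ x' u v) ∧
      (∀ u v, x' u v ≠ 0 →
        D.x u v ≠ 0 ∧ rs D.sg (u, true) = 0 ∧ rs D.sg (v, false) = 0 ∧ D.ub u v = 0) ∧
      (∀ u v, x' u v ≤ D.x u v * ((1 + D.Psi) / (1 - D.th))) ∧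
      (∀ w, rs x' w ≤ 1) ∧
      (∀ w, D.H w → rs D.sg w = 0 →
        1 - 2 * (D.r / (1 - D.th) + D.beta + D.th * D.de) ≤ rs x' w)

/-! ## A. Application: the arrays -/

/-- AQ1: energy of `A μ_w`. -/
def Aq1Stmt : Prop :=
  ∀ (W : Type) [Fintype W] [DecidableEq W] (A : Matrix W W ℝ) (gh : W → W → ℝ)
    (de eps : ℝ) (ta Z : ℕ), IsSub A → (∀ a b, A a b ≤ de) → 0 ≤ de → 0 ≤ eps → 1 ≤ ta →
    GhOk A gh de eps ta Z → ∀ w, En A (A *ᵥ mu A gh w) ≤ de * (2 / ta + 16 * eps)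

/-- AQ2: energy of `A ĝ_w`. -/
def Aq2Stmt : Prop :=
  ∀ (W : Type) [Fintype W] [DecidableEq W] (A : Matrix W W ℝ) (gh : W → W → ℝ)
    (de eps : ℝ) (ta Z : ℕ), IsSub A → (∀ a b, A a b ≤ de) → 0 ≤ de → 0 ≤ eps → 1 ≤ ta →
    GhOk A gh de eps ta Z → ∀ w, En A (A *ᵥ gh w) ≤ de * (ta + 4 * eps)

/-- AQ3: weighted squares of `plu c_w` and `plu A δ_w`. -/
def Aq3Stmt : Prop :=
  ∀ (V : Type) [Fintype V] [DecidableEq V] (x : V → V → ℝ)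
    (gh : V × Bool → V × Bool → ℝ) (de : ℝ), (∀ u v, 0 ≤ x u v) → (∀ u v, x u v ≤ de) →
    (∀ w, rs x w ≤ 1) → 0 ≤ de → ∀ w,
    Qf x (plu (cc (mat x) gh w)) ≤ de * Gamh (mat x) gh w ∧
    Qf x (plu (mat x *ᵥ dl w)) ≤ de ∧ 0 ≤ Gamh (mat x) gh w

/-- ASUP: sup bounds of the arrays. -/
def AsupStmt : Prop :=
  ∀ (V : Type) [Fintype V] [DecidableEq V] (x : V → V → ℝ)
    (gh : V × Bool → V × Bool → ℝ) (de eps : ℝ) (ta Z : ℕ), (∀ u v, 0 ≤ x u v) →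
    (∀ u v, x u v ≤ de) → (∀ w, rs x w ≤ 1) → 0 ≤ de → GhOk (mat x) gh de eps ta Z →
    (∀ j u v, |kpA x gh j u v| ≤ MbA x gh de ta j) ∧ ∀ j, 0 ≤ MbA x gh de ta j

/-- ASP1: supports of the arrays. -/
def Asp1Stmt : Prop :=
  ∀ (V : Type) [Fintype V] [DecidableEq V] (x : V → V → ℝ)
    (gh : V × Bool → V × Bool → ℝ) (de eps : ℝ) (ta Z kap : ℕ),
    (∀ u, ({v | x u v ≠ 0} : Set V).ncard ≤ kap) →
    (∀ v, ({u | x u v ≠ 0} : Set V).ncard ≤ kap) → GhOk (mat x) gh de eps ta Z →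
    ∀ j, ({a | x a.1 a.2 ≠ 0 ∧ kpA x gh j a.1 a.2 ≠ 0} : Set (V × V)).ncard ≤ KK1 kap Z

/-- ASP2: multiplicities of the supports. -/
def Asp2Stmt : Prop :=
  ∀ (V : Type) [Fintype V] [DecidableEq V] (x : V → V → ℝ)
    (gh : V × Bool → V × Bool → ℝ) (de eps : ℝ) (ta Z kap : ℕ),
    (∀ u, ({v | x u v ≠ 0} : Set V).ncard ≤ kap) →
    (∀ v, ({u | x u v ≠ 0} : Set V).ncard ≤ kap) → GhOk (mat x) gh de eps ta Z →
    ∀ a : V × V, x a.1 a.2 ≠ 0 →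
      ({j | kpA x gh j a.1 a.2 ≠ 0} : Set (JJ V)).ncard ≤ KK2 kap Z

/-- AK: from (O4) for the arrays to (k1)-(k5). -/
def AkStmt : Prop :=
  ∀ (V : Type) [Fintype V] [DecidableEq V] (P : Prm) (x xo sg : V → V → ℝ)
    (gh : V × Bool → V × Bool → ℝ) (Z : ℕ), (∀ u v, 0 ≤ x u v) → (∀ u v, x u v ≤ P.de) →
    (∀ w, rs x w ≤ 1) → 0 ≤ P.de → 0 ≤ P.eps → 0 ≤ P.th → 0 ≤ P.lam → 1 ≤ P.ta →
    9 * √(P.lam * P.th * P.de) + 8 * P.lam * √P.de ≤ P.th →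
    GhOk (mat x) gh P.de P.eps P.ta Z →
    (∀ j, |dev P.th xo sg (kpA x gh j)| ≤
      9 * √(P.lam * P.th * Qf x (kpA x gh j)) + 8 * P.lam * MbA x gh P.de P.ta j) →
    (∀ w, |dev P.th xo sg (grad (mat x *ᵥ mu (mat x) gh w))| ≤ P.B1) ∧
    (∀ w, |dev P.th xo sg (grad (mat x *ᵥ gh w))| ≤ P.Phi) ∧
    (∀ w w', mat x w w' ≠ 0 → |dev P.th xo sg (grad (mat x *ᵥ (gh w - gh w')))| ≤
      P.el * (√(P.th * Qd (mat x) gh w w') + P.kb)) ∧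
    (∀ w, |dev P.th xo sg (plu (cc (mat x) gh w))| ≤ P.th * √(Gamh (mat x) gh w)) ∧
    (∀ w, |dev P.th xo sg (plu (mat x *ᵥ dl w))| ≤ P.B4)

/-! ## B. The bite lemma -/

/-- BOK: a state gives the data of a random bite. -/
def BokStmt : Prop :=
  ∀ (V C : Type) [Fintype V] [DecidableEq V] [Fintype C] [DecidableEq C]
    (E : V → V → Prop) (S : St V C) (de r h Lam th : ℝ) (kap : ℕ), S.Good E de r h →
    DegLe E kap → 0 ≤ de → 0 ≤ h → h * de ≤ Lam → 0 < th → th ≤ 1 / 200 →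
    800 * th * Lam ≤ 1 →
    ∃ ord : V × V → ℕ, (⟨S.x, S.st, th, ord⟩ : Bm V C).Ok de Lam h kap

/-- BXO: the weights without the closing arcs. -/
def BxoStmt : Prop :=
  ∀ (V C : Type) [Fintype V] [DecidableEq V] [Fintype C] [DecidableEq C]
    (b : Bm V C) (de Lam h : ℝ) (kap : ℕ), b.Ok de Lam h kap → 0 ≤ de →
    (∀ c u v, 0 ≤ b.xo c u v) ∧ (∀ c u v, b.xo c u v ≤ b.x c u v) ∧
    (∀ c w, rs (b.x c) w - de ≤ rs (b.xo c) w)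

/-- BCNT: the new number of holes. -/
def BcntStmt : Prop :=
  ∀ (V C J : Type) [Fintype V] [DecidableEq V] [Fintype C] [DecidableEq C]
    (E : V → V → Prop) (S : St V C) (b : Bm V C) (de r h Lam lam : ℝ) (kap : ℕ)
    (kp : C → J → V → V → ℝ) (Mb : C → J → ℝ) (sg ub : C → V → V → ℝ) (lab : C → V → Prop),
    S.Good E de r h → b.x = S.x → b.st = S.st → b.Ok de Lam h kap → 0 ≤ de → 0 ≤ r →
    r ≤ 1 / 8 → SelOut b de Lam h lam kp Mb sg ub lab → ∀ w,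
    (({c | S.hole c w ∧ rs (sg c) w = 0} : Set C).ncard : ℝ) ≤
      (1 - b.th) * h + b.th * h * (2 * r + de) + 9 * √(lam * b.th * h) + 8 * lam

/-- BDOK: the data of the correction theorem satisfy its hypotheses. -/
def BdokStmt : Prop :=
  ∀ (V C : Type) [Fintype V] [DecidableEq V] [Fintype C] [DecidableEq C]
    (E : V → V → Prop) (S : St V C) (b : Bm V C) (P : Prm) (kap np nC : ℕ) (lam' h : ℝ)
    (gh : V × Bool → V × Bool → ℝ) (sg ub : V → V → ℝ) (c : C),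
    S.Good E P.de P.r h → P.BiteOk nC kap np lam' h → b.x = S.x → b.st = S.st →
    b.th = P.th → b.Ok P.de P.Lam h kap →
    GhOk (mat (S.x c)) gh P.de P.eps P.ta (np * P.ta) →
    (∀ u v, sg u v = 0 ∨ sg u v = 1) → (∀ u v, ub u v = 0 ∨ ub u v = 1) →
    (∀ u v, sg u v = 1 → S.x c u v ≠ 0) → (∀ w, rs sg w ≤ 1) →
    (∀ j, |dev P.th (b.xo c) sg (kpA (S.x c) gh j)| ≤
      9 * √(P.lam * P.th * Qf (S.x c) (kpA (S.x c) gh j)) +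
        8 * P.lam * MbA (S.x c) gh P.de P.ta j) →
    (∀ w, |∑ w', mat (S.x c) w w' * Gf P.th sg w' * mat (yv ub (b.om c)) w w'| ≤ P.B5) →
    (∀ w, ∑ w', mat (S.x c) w w' * mat ub w w' ≤ P.B6) →
    Cd.Ok { x := S.x c, xo := b.xo c, sg := sg, ub := ub, om := b.om c, H := S.hole c,
            gh := gh, th := P.th, de := P.de, r := P.r, eps := P.eps, B1 := P.B1,
            Phi := P.Phi, el := P.el, kb := P.kb, B4 := P.B4, B5 := P.B5, B6 := P.B6,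
            obar := P.obar, ta := P.ta }

/-- BUPD: the update of the state. -/
def BupdStmt : Prop :=
  ∀ (V C : Type) [Fintype V] [DecidableEq V] [Fintype C] [DecidableEq C]
    (E : V → V → Prop) (S : St V C) (de r h de' r' h' : ℝ) (sg : C → V → V → ℝ)
    (lab : C → V → Prop) (x' : C → V → V → ℝ), S.Good E de r h →
    (∀ c u v, sg c u v = 0 ∨ sg c u v = 1) → (∀ c u v, sg c u v = 1 → S.x c u v ≠ 0) →
    (∀ c w, rs (sg c) w ≤ 1) →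
    (∀ c u v, sg c u v = 1 → ¬ lab c (S.st c u) ∧ lab c v) →
    (∀ c c' u v, c ≠ c' → sg c u v = 1 → sg c' u v = 0) →
    (∀ c u v, 0 ≤ x' c u v) →
    (∀ c u v, x' c u v ≠ 0 → S.x c u v ≠ 0 ∧ rs (sg c) (u, true) = 0 ∧
      rs (sg c) (v, false) = 0 ∧ ∀ c', sg c' u v = 0) →
    (∀ c u v, x' c u v ≤ de') → (∀ c w, rs (x' c) w ≤ 1) →
    (∀ c w, S.hole c w → rs (sg c) w = 0 → 1 - 2 * r' ≤ rs (x' c) w) →
    (∀ w, (({c | S.hole c w ∧ rs (sg c) w = 0} : Set C).ncard : ℝ) ≤ h') →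
    ∃ S' : St V C, S'.Good E de' r' h'

/-- BITE: the bite lemma. -/
def BiteStmt : Prop :=
  ∀ (V C : Type) [Fintype V] [DecidableEq V] [Fintype C] [DecidableEq C]
    (E : V → V → Prop) (S : St V C) (P : Prm) (kap np : ℕ) (lam' h : ℝ),
    DegLe E kap → S.Good E P.de P.r h → P.BiteOk (Fintype.card C) kap np lam' h →
    ∃ S' : St V C, S'.Good E (P.de * ((1 + P.Psi) / (1 - P.th)))
      (P.r / (1 - P.th) + P.beta + P.th * P.de)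
      ((1 - P.th) * h + P.th * h * (2 * P.r + P.de) + 9 * √(P.lam * P.th * h) + 8 * P.lam)

/-! ## N. Numerics -/

/-- NSQ: values of the square roots. -/
def NphiStmt : Prop :=
  ∃ N0 : ℕ, ∀ N : ℕ, N0 ≤ N → ∀ D de r h : ℝ, Reg N D de r h →
    (prm N de r).B1 ≤ 20 / (N : ℝ) ^ 69 / √D + 33 * (N : ℝ) ^ 82 * de ∧
    (prm N de r).Phi ≤ 15 * (N : ℝ) ^ 11 / √D ∧
    (prm N de r).beta2 ≤ 90 / (N : ℝ) ^ 69 / √D + 72 * (N : ℝ) ^ 22 * de ∧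
    (prm N de r).B4 ≤ 15 / (N : ℝ) ^ 29 / √D ∧
    (prm N de r).B5 ≤ 30 / (N : ℝ) ^ 109 / √D + 9 * (N : ℝ) ^ 2 * de ∧
    (prm N de r).B6 ≤ 33 / (N : ℝ) ^ 220 + 18 / (N : ℝ) ^ 109 / √D + 4 * (N : ℝ) ^ 2 * de

/-- NSTEP: all inequalities needed for one bite, except the local lemma conditions. -/
def NstepStmt : Prop :=
  ∃ N0 : ℕ, ∀ N : ℕ, N0 ≤ N → ∀ D de r h : ℝ, Reg N D de r h →
    (prm N de r).r ≤ 1 / 8 ∧ (prm N de r).phib ≤ 1 / 8 ∧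
    (prm N de r).b1 ≤ (prm N de r).th ∧ (prm N de r).B4 ≤ (prm N de r).th / 2 ∧
    9 * √((prm N de r).lam * (prm N de r).th * de) + 8 * (prm N de r).lam * √de ≤
      (prm N de r).th ∧
    (prm N de r).Psi ≤ 1 / (N : ℝ) ^ 80 ∧
    D * ((prm N de r).beta + (prm N de r).th * de) ≤ 200 * (N : ℝ) ^ 171

/-- NH: the recursion of the number of holes. -/
def NhStmt : Prop :=
  ∃ N0 : ℕ, ∀ N : ℕ, N0 ≤ N → ∀ D de r h : ℝ, Reg N D de r h →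
    (1 - 1 / (N : ℝ) ^ 60) * h + 1 / (N : ℝ) ^ 60 * h * (2 * r + de) +
      9 * √((N : ℝ) ^ 2 * (1 / (N : ℝ) ^ 60) * h) + 8 * (N : ℝ) ^ 2 ≤
      (1 - 1 / (N : ℝ) ^ 60) * h * (1 + 1 / (2 * (N : ℝ) ^ 61))

/-- NLLL: the local lemma conditions. -/
def NlllStmt : Prop :=
  ∃ N0 : ℕ, ∀ N : ℕ, N0 ≤ N → ∀ kap : ℕ, kap ≤ 2 * N ^ 480 →
    LLL1 (N ^ 330) (N ^ 80) kap ((N : ℝ) ^ 85) ∧
    LLL2 (N ^ 320) kap (KK1 kap (N ^ 330 * N ^ 80)) (KK2 kap (N ^ 330 * N ^ 80)) ((N : ℝ) ^ 2)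

/-- NBOK: the conditions for one bite hold in the regime. -/
def NbokStmt : Prop :=
  ∃ N0 : ℕ, ∀ N : ℕ, N0 ≤ N → ∀ kap : ℕ, kap ≤ 2 * N ^ 480 → ∀ D de r h : ℝ,
    Reg N D de r h →
    (prm N de r).BiteOk (N ^ 320) kap (N ^ 330) ((N : ℝ) ^ 85) h

/-- NTIM: the number of bites. -/
def NtimStmt : Prop :=
  ∃ N0 : ℕ, ∀ N : ℕ, N0 ≤ N → ∀ K : ℕ, N ^ 480 ≤ K → K ≤ 2 * N ^ 480 →
    ∃ T : ℕ, T ≤ N ^ 61 ∧ (K : ℝ) * (1 - 1 / (N : ℝ) ^ 60) ^ T ≤ (N : ℝ) ^ 234 ∧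
      ∀ t < T, (N : ℝ) ^ 234 ≤ (K : ℝ) * (1 - 1 / (N : ℝ) ^ 60) ^ t

/-- ITER: the round lemma. -/
def RoundStmt : Prop :=
  ∃ N0 : ℕ, ∀ N : ℕ, N0 ≤ N → ∀ K : ℕ, N ^ 480 ≤ K → K ≤ 2 * N ^ 480 → RoundFor N K

/-! ## R. Reduction -/

open Pool.Agent.Helper14_LA

/-- Every graph of maximum degree at most `2 K` is a union of `k` linear forests. -/
def Cov (K k : ℕ) : Prop :=
  ∀ (V : Type) [Finite V] (G : SimpleGraph V), (∀ v, (G.neighborSet v).ncard ≤ 2 * K) →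
    CoveredBy G k

/-- ORI: balanced orientation. -/
def OriStmt : Prop :=
  ∀ (V : Type) [Finite V] (G : SimpleGraph V) (K : ℕ), (∀ v, (G.neighborSet v).ncard = 2 * K) →
    ∃ E : V → V → Prop, DegEq E K ∧ (∀ u v, E u v → G.Adj u v) ∧
      (∀ u v, G.Adj u v → E u v ∨ E v u) ∧ ∀ u v, E u v → ¬ E v u

/-- LINF: a rank function gives a linear forest. -/
def LinfStmt : Prop :=
  ∀ (V : Type) [Finite V] (M : V → V → Prop) (rk : V → ℕ) (F : SimpleGraph V),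
    (∀ u v, F.Adj u v ↔ M u v ∨ M v u) → (∀ u v v', M u v → M u v' → v = v') →
    (∀ u u' v, M u v → M u' v → u = u') → (∀ u v, M u v → rk u < rk v) → IsLinearForest F

/-- RED: one round of the reduction. -/
def RedStmt : Prop :=
  ∀ (N K k : ℕ), RoundFor N K → N ^ 320 ≤ K → 2 * N ^ 74 ≤ N ^ 320 →
    Cov (K + 2 * N ^ 74 - N ^ 320) k → Cov K (k + N ^ 320)

/-- BAS: the greedy bound. -/
def BasStmt : Prop := ∀ K : ℕ, Cov K (2 * K)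

/-- FIN: the numerical induction. -/
def FinStmt : Prop :=
  ∃ C : ℝ, ∀ K : ℕ, ∃ k : ℕ, Cov K k ∧ (k : ℝ) ≤ K + (K : ℝ) ^ (0.49 : ℝ) + C

end Pool.Agent.NIB
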