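import Mathlib
import Pool.Agent.Helper82_NIB.Stmts

set_option autoImplicit false

open Finset Matrix

namespace Pool.Agent.NIB.H82

theorem bite (hSmp : SmpStmt) (hSel : SelStmt) (hCorr : CorrStmt) (hBok : BokStmt)
    (hBcnt : BcntStmt) (hBupd : BupdStmt) (hBdok : BdokStmt) (hAsup : AsupStmt)
    (hAsp1 : Asp1Stmt) (hAsp2 : Asp2Stmt) : BiteStmt := by
  intro V C _ _ _ _ E S P kap np lam' h hE hS hP
  classical
  have hde0 : 0 ≤ P.de := hP.de0.le
  have hh0 : 0 ≤ h := by linarith [hP.h1]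
  have hLam0 : 0 ≤ P.Lam := le_trans (mul_nonneg hh0 hde0) hP.hLam
  obtain ⟨ord, hb⟩ := hBok V C E S P.de P.r h P.Lam P.th kap hS hE hde0 hh0 hP.hLam hP.th0
    hP.th1 hP.thLam
  set b : Bm V C := ⟨S.x, S.st, P.th, ord⟩ with hbdef
  have hkout : ∀ c u, ({v | S.x c u v ≠ 0} : Set V).ncard ≤ kap := fun c u =>
    (Set.ncard_le_ncard (fun v hv => hS.xE c u v hv) (Set.toFinite _)).trans (hE.out u)
  have hkin : ∀ c v, ({u | S.x c u v ≠ 0} : Set V).ncard ≤ kap := fun c v =>
    (Set.ncard_le_ncard (fun u hu => hS.xE c u v hu) (Set.toFinite _)).trans (hE.inn v)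
  -- sampled Green functions
  have hgh : ∀ c, ∃ gh, GhOk (mat (S.x c)) gh P.de P.eps P.ta (np * P.ta) := by
    intro c
    rw [hP.eps]
    exact hSmp (V × Bool) (mat (S.x c)) P.de lam' np P.ta kap (isSub_mat (hS.x0 c) (hS.row c))
      (mat_le hde0 (hS.xle c)) hde0 (mat_row_ncard (hkout c) (hkin c)) hP.ta1 hP.lam'1 hP.np1
      hP.lll1
  choose gh hgh using hgh
  obtain ⟨sg, ub, lab, hs⟩ := hSel V C (JJ V) b P.de P.Lam h P.lam kap
    (KK1 kap (np * P.ta)) (KK2 kap (np * P.ta)) (fun c j => kpA (S.x c) (gh c) j)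
    (fun c j => MbA (S.x c) (gh c) P.de P.ta j) hb hde0 hLam0 hP.lam1
    (fun c j => (hAsup V (S.x c) (gh c) P.de P.eps P.ta (np * P.ta) (hS.x0 c) (hS.xle c)
      (hS.row c) hde0 (hgh c)).1 j)
    (fun c j => (hAsup V (S.x c) (gh c) P.de P.eps P.ta (np * P.ta) (hS.x0 c) (hS.xle c)
      (hS.row c) hde0 (hgh c)).2 j)
    (fun c j => hAsp1 V (S.x c) (gh c) P.de P.eps P.ta (np * P.ta) kap (hkout c) (hkin c)
      (hgh c) j)
    (fun c a ha => hAsp2 V (S.x c) (gh c) P.de P.eps P.ta (np * P.ta) kap (hkout c) (hkin c)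
      (hgh c) a ha)
    hP.lll2
  have hD := fun c => hBdok V C E S b P kap np (Fintype.card C) lam' h (gh c) (sg c) (ub c) c hS
    hP rfl rfl rfl hb (hgh c) (hs.sg01 c) (hs.ub01 c) (hs.sgx c) (hs.sgrow c) (hs.o4 c)
    (hs.o5 c) (hs.o6 c)
  choose x' h1 h2 h3 h4 h5 using fun c => hCorr V _ (hD c)
  refine hBupd V C E S P.de P.r h _ _ _ sg lab x' hS hs.sg01 hs.sgx hs.sgrow hs.sglab hs.sgdisj
    h1 ?_ ?_ h4 ?_ ?_
  · intro c u v hx
    obtain ⟨k1, k2, k3, k4⟩ := h2 c u v hx
    refine ⟨k1, k2, k3, fun c' => ?_⟩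
    rcases hs.sg01 c' u v with h0 | h0
    · exact h0
    · exfalso
      by_cases hcc : c' = c
      · subst hcc
        have h6 : rs (sg c') (u, true) = ∑ v, sg c' u v := rs_out _ _
        have h7 : sg c' u v ≤ ∑ v, sg c' u v :=
          Finset.single_le_sum (f := fun v => sg c' u v)
            (fun v _ => by rcases hs.sg01 c' u v with h | h <;> simp [h]) (Finset.mem_univ v)
        have k2' : rs (sg c') (u, true) = 0 := k2
        rw [← h6, k2', h0] at h7
        linarith
      · have h6 := hs.sgub c' c u v hcc h0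
        have k4' : ub c u v = 0 := k4
        rw [k4'] at h6
        exact zero_ne_one h6
  · intro c u v
    refine (h3 c u v).trans ?_
    have h6 := hS.xle c u v
    have h7 : 0 ≤ (1 + P.Psi) / (1 - P.th) := by
      have h8 : 0 ≤ (S.x c u v) * ((1 + P.Psi) / (1 - P.th)) := (h1 c u v).trans (h3 c u v)
      have h9 : 0 < 1 - P.th := by linarith [hP.th1]
      refine div_nonneg ?_ h9.le
      have h10 : 0 ≤ (1 + P.Psi) := by
        have h11 := (hD c).phib1
        have h12 : 0 ≤ P.phib := by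
          have h13 := (hD c).Phi0
          have h14 := (hD c).th0
          simp only at h13 h14
          unfold Prm.phib
          positivity
        have h13 : 0 ≤ P.obar := (hD c).obar0
        have : 1 + P.Psi = (1 + 2 * P.phib) * (1 + 2 * P.obar) := by unfold Prm.Psi; ring
        rw [this]
        positivity
      exact h10
    exact mul_le_mul_of_nonneg_right h6 h7
  · exact fun c w hw hr => h5 c w hw hr
  · exact fun w => hBcnt V C (JJ V) E S b P.de P.r h P.Lam P.lam kap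
      (fun c j => kpA (S.x c) (gh c) j) (fun c j => MbA (S.x c) (gh c) P.de P.ta j) sg ub lab hS
      rfl rfl hb hde0 hP.r0 hP.r1 hs w

end Pool.Agent.NIB.H82
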